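import Pool.Agent.Helper92.WA.St

set_option autoImplicit false

namespace Pool.Agent.Helper92.WA

open Finset Pool.Agent.Helper69.RK Pool.Agent.Helper61.GL Pool.Agent.Helper46.WF
open Pool.Agent.Helper92.W

noncomputable section

open Classical in
/-- (1.5): pairs of cells -/
def ST_CLOA : Prop := ∀ (c e al : ℝ), 0 < c → c ≤ 1 → 0 < e → ∀ ρ : ℕ, ∃ R0 : ℕ, ∀ R : ℕ, R0 ≤ R →
  ∃ η : ℝ, 0 < η ∧ ∃ n0 : ℕ, ∀ n s : ℕ, n0 ≤ n → ∀ (Ω : Type) [Fintype Ω] (μ : Ω → ℝ)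
    (z : Ω → ℝ) (X Y : Ω → Fin 2 → ℝ), CfgA n s η c al μ z X Y →
    ∑ ω, μ ω * ∑ l ∈ range (n + 1), ∑ j ∈ range (n + 1),
      (if l + j + s + (ρ + 1) ≤ n ∧ DL μ z c R (l + j + s + (ρ + 1)) ω then sl μ Y X j l ρ ω else 0) ≤
        e * (n : ℝ) ^ 2

open Classical in
/-- (1.6): the reference vector at scale `0` -/
def ST_REFA : Prop := ∀ (c e al : ℝ), 0 < c → c ≤ 1 → 0 < e → ∀ ρ : ℕ, ∃ R0 : ℕ, ∀ R : ℕ, R0 ≤ R →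
  ∃ η : ℝ, 0 < η ∧ ∃ n0 : ℕ, ∀ n s : ℕ, n0 ≤ n → ∀ (Ω : Type) [Fintype Ω] (μ : Ω → ℝ)
    (z : Ω → ℝ) (X Y : Ω → Fin 2 → ℝ), CfgA n s η c al μ z X Y →
    (∑ ω, μ ω * ∑ j ∈ range (n + 1),
      (if j + s + (ρ + 1) ≤ n ∧ DL μ z c R (j + s + (ρ + 1)) ω then nl μ Y j ρ (X ω) ω else 0) ≤ e * n) ∧
    (∑ ω, μ ω * ∑ l ∈ range (n + 1),
      (if l + s + (ρ + 1) ≤ n ∧ DL μ z c R (l + s + (ρ + 1)) ω then nl μ X l ρ (Y ω) ω else 0) ≤ e * n)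

end

end Pool.Agent.Helper92.WA
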