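import Pool.Agent.Helper92.WA.Fail
import Pool.Agent.Helper92.WA.St2
import Pool.Agent.Helper92.W.Pick
import Pool.Agent.Helper92.W.Cst

set_option autoImplicit false

namespace Pool.Agent.Helper92.WA

open Finset Pool.Agent.Helper69.RK Pool.Agent.Helper61.GL Pool.Agent.Helper46.WF Pool.Agent.Helper97.WF
open Pool.Agent.Helper92.W

noncomputable section

/-- unsaturated paths: monotone in the error -/
theorem un_monoA {Ω : Type} [Fintype Ω] {μ : Ω → ℝ} (hμ : ∀ ω, 0 ≤ μ ω) {z : Ω → ℝ} {n : ℕ} {c η η' al : ℝ}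
    (hη : η ≤ η') (h : Pw μ (fun ω => ∃ a b : ℕ, al * n ≤ a ∧ a ≤ b ∧ b ≤ n ∧
      (1 - c) * ((b : ℝ) - a) + η * n < srp μ (fun ω' => fl b (z ω')) (fun ω' => fl a (z ω')) ω) ≤ η) :
    Pw μ (fun ω => ∃ a b : ℕ, al * n ≤ a ∧ a ≤ b ∧ b ≤ n ∧ (1 - c) * ((b : ℝ) - a) + η' * n <
      srp μ (fun ω' => fl b (z ω')) (fun ω' => fl a (z ω')) ω) ≤ η' := by
  refine (Pw_mono μ hμ ?_).trans (h.trans hη)
  rintro ω _ ⟨a, b, h0, h1, h2, h3⟩
  refine ⟨a, b, h0, h1, h2, lt_of_le_of_lt ?_ h3⟩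
  have := mul_le_mul_of_nonneg_right hη (Nat.cast_nonneg (α := ℝ) n)
  linarith

theorem CfgA_mono {Ω : Type} [Fintype Ω] {n s : ℕ} {η η' c al : ℝ} {μ : Ω → ℝ} {z : Ω → ℝ}
    {X Y : Ω → Fin 2 → ℝ} (hη : η ≤ η') (h : CfgA n s η c al μ z X Y) : CfgA n s η' c al μ z X Y := by
  have h1 := mul_le_mul_of_nonneg_right hη (Nat.cast_nonneg (α := ℝ) n)
  exact ⟨h.nn, h.ms, h.zb, h.xb, h.yb, h.ang, by have := h.i1; linarith, by have := h.i2; linarith,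
    by have := h.i3; linarith, by have := h.tx; linarith, by have := h.ty; linarith, un_monoA h.nn hη h.un⟩

open Classical in
/-- **ASSEMBLY** -/
theorem st_ASMA : ST_DENA → ST_PRE → ST_SLO → ST_CLOA → ST_REFA → ST_G2 → ST_G3 → ST_G4 → ST_G5 →
    ST_CFGA := by
  intro hDEN hPRE hSLO hCLO hREF hG2 hG3 hG4 hG5 c κ al hc hc1 hκ hκ1 hal
  obtain ⟨C2, hg2⟩ := hG2
  obtain ⟨C3, hg3⟩ := hG3
  obtain ⟨C5, hg5⟩ := hG5
  obtain ⟨κ', hκ'⟩ : ∃ κ', κ' = min (1 - κ) (1 - al) / 2 := ⟨_, rfl⟩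
  have hκ'a : 2 * κ' ≤ 1 - κ := by
    rw [hκ']
    have := min_le_left (1 - κ) (1 - al)
    linarith
  have hκ'b : 2 * κ' ≤ 1 - al := by
    rw [hκ']
    have := min_le_right (1 - κ) (1 - al)
    linarith
  have hκ'0 : 0 < κ' := by
    rw [hκ']
    have : 0 < min (1 - κ) (1 - al) := lt_min (by linarith) (by linarith)
    linarith
  have hκ'1 : κ' ≤ 1 := by linarith
  obtain ⟨K, hKK⟩ := exists_nat_ge (16 / κ')
  have hK1 : 0 < K1W c K := by unfold K1W; positivity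
  obtain ⟨θd, θ, τ, r, w, R1, R, hCR, hR1p, hRR1, hRp, hθ0, hθ1, hθd2, hθe, hτ0, hτ1, hτK, hττ, hR1a, hR1b,
    hr, hr0, hw, hcnt, hsmall⟩ := cst hc hc1 hK1 K (C2 + C3 + C5)
  have hR1R : R1 ≤ R := by omega
  have hR1R' : (R1 : ℝ) ≤ R := by exact_mod_cast hR1R
  have hR1r : (0 : ℝ) < R1 := by exact_mod_cast hR1p
  obtain ⟨e2, he2⟩ : ∃ e2 : ℝ, e2 = c * θ ^ 2 / 8 := ⟨_, rfl⟩
  have he20 : 0 < e2 := by rw [he2]; positivity
  obtain ⟨e3, he3⟩ : ∃ e3 : ℝ, e3 = c / 4 := ⟨_, rfl⟩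
  have he30 : 0 < e3 := by rw [he3]; positivity
  have hτsq : τ ^ 2 / 4 ≤ 1 / 64 := by
    have h1 := pow_le_pow_left₀ hτ0.le hτ1 2
    norm_num at h1
    linarith only [h1]
  have hgeo : Geo R1 R τ r := by
    refine ⟨?_, ?_, ?_⟩
    · intro Ω Ω' _ _ w V w' Y a1 a2 a3 a4 a5 a6 a7 a8 a9 a10
      obtain ⟨θ', b1, b2, b3⟩ := hg2 R1 R (τ ^ 2 / 4) (by omega) hRR1 (by positivity) hτsq
        Ω Ω' w V w' Y a1 a2 a3 a4 a5 a6 a7 a8 a9 a10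
      rw [← hr] at b2 b3
      have e : 4 * (τ ^ 2 / 4) = τ ^ 2 := by ring
      rw [e] at b2 b3
      exact ⟨θ', b1, b2, b3⟩
    · intro Ω _ w V a1 a2 a3 a4
      exact hg3 R1 (by omega) Ω w V a1 a2 a3 a4
    · intro Ω _ w V a1 a2 a3 a4 θ' U b1 b2 b3 b4
      exact hg5 R1 R (by omega) Ω w V a1 a2 a3 a4 θ' U r b1 b2 hr0 b3 b4
  -- the error terms
  obtain ⟨ed, hed⟩ : ∃ ed : ℝ, ed = θ * κ' / 400 := ⟨_, rfl⟩
  have hed0 : 0 < ed := by rw [hed]; positivity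
  have hed1 : ed ≤ 1 / 25 := by
    rw [hed]
    have : θ * κ' ≤ 1 * 1 := mul_le_mul (by linarith) hκ'1 hκ'0.le zero_le_one
    linarith
  obtain ⟨ec, hec⟩ : ∃ ec : ℝ, ec = (τ ^ 2 / 4) ^ 2 * e2 * κ' ^ 2 / (256 * 25) := ⟨_, rfl⟩
  have hec0 : 0 < ec := by rw [hec]; positivity
  obtain ⟨er, her⟩ : ∃ er : ℝ, er = κ' * e3 / (256 * 25) := ⟨_, rfl⟩
  have her0 : 0 < er := by rw [her]; positivity
  obtain ⟨Ra, hRa⟩ := hCLO c ec al hc hc1 hec0 R1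
  obtain ⟨Rb, hRb⟩ := hCLO c ec al hc hc1 hec0 R
  obtain ⟨Rc, hRc⟩ := hREF c er al hc hc1 her0 R
  obtain ⟨R', hR'⟩ : ∃ R' : ℕ, R' = Ra + Rb + Rc + 1 := ⟨_, rfl⟩
  obtain ⟨ηa, hηa, na, hna⟩ := hRa R' (by omega)
  obtain ⟨ηb, hηb, nb, hnb⟩ := hRb R' (by omega)
  obtain ⟨ηc, hηc, nc, hnc⟩ := hRc R' (by omega)
  obtain ⟨ηd, hηd, nd, hnd⟩ := hDEN c al ed hc hc1 hed0 R' (by omega)
  obtain ⟨ηe, hηe, ne, hne⟩ := hPRE ed hed0 R1 hR1p
  obtain ⟨ηf, hηf, nf, hnf⟩ := hPRE ed hed0 R hRp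
  obtain ⟨η, hη0, ha, hb, hcc, hd, he, hf⟩ := cst_min hηa hηb hηc hηd hηe hηf
  obtain ⟨ng, hng⟩ := exists_nat_ge (2 * (R + 8) / κ')
  obtain ⟨nh, hnh⟩ := exists_nat_ge (16 * (8 * 25 / θ ^ 3) / κ')
  refine ⟨η, hη0, na + nb + nc + nd + ne + nf + ng + nh, ?_⟩
  intro n s hn hs Ω _ μ z X Y hcfg
  have hμ := hcfg.nn
  have hm := hcfg.ms
  -- the number of blocks
  have hn1 : 2 * ((R : ℝ) + 8) ≤ κ' * n := by
    have h1 : 2 * ((R : ℝ) + 8) / κ' ≤ n := hng.trans (by exact_mod_cast (by omega : ng ≤ n))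
    rw [div_le_iff₀ hκ'0] at h1
    linarith only [h1]
  have hn2 : 16 * (8 * 25 / θ ^ 3) ≤ κ' * n := by
    have h1 : 16 * (8 * 25 / θ ^ 3) / κ' ≤ n := hnh.trans (by exact_mod_cast (by omega : nh ≤ n))
    rw [div_le_iff₀ hκ'0] at h1
    linarith only [h1]
  obtain ⟨T, M, hT8, hTn, hMK, halM⟩ := cst_blkW hκ'0 hκ'a hκ'b hKK hn1 hs
  obtain ⟨hT3', hθT, hT1⟩ := cst_T hθ0 hθ1 hn2 hTn
  obtain ⟨hedn, hecn, hern⟩ := cst_err (τ := τ) hκ'0 hθ0 he20 he30 hTn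
  rw [← hed] at hedn
  rw [← hec] at hecn
  rw [← her] at hern
  -- failures
  have fden := hnd n (by omega) Ω μ z hμ hm hcfg.zb (un_monoA hμ hd hcfg.un)
  have htx : ∀ η' : ℝ, η ≤ η' → (1 - η') * n ≤ Hh μ (fun ω => fl n (X ω 0)) := by
    intro η' h
    have h1 := mul_le_mul_of_nonneg_right h (Nat.cast_nonneg (α := ℝ) n)
    have h2 := hcfg.tx
    linarith only [h1, h2]
  have hty : ∀ η' : ℝ, η ≤ η' → (1 - η') * n ≤ Hh μ (fun ω => fl n (Y ω 0)) := by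
    intro η' h
    have h1 := mul_le_mul_of_nonneg_right h (Nat.cast_nonneg (α := ℝ) n)
    have h2 := hcfg.ty
    linarith only [h1, h2]
  have fX1 := hne n (by omega) Ω μ X hμ hm hcfg.xb (htx ηe he)
  have fX2 := hnf n (by omega) Ω μ X hμ hm hcfg.xb (htx ηf hf)
  have fY1 := hne n (by omega) Ω μ Y hμ hm hcfg.yb (hty ηe he)
  have fY2 := hnf n (by omega) Ω μ Y hμ hm hcfg.yb (hty ηf hf)
  have fS1 := slo_failW hSLO hμ hm X R1 T M K hMK (θ := θ) (δ := 1 / 25) hR1p hT1 hθ0 (by linarith) (by linarith)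
  have fS2 := slo_failW hSLO hμ hm X R T M K hMK (θ := θ) (δ := 1 / 25) hRp hT1 hθ0 (by linarith) (by
    have := mul_le_mul_of_nonneg_left hR1R' (show (0 : ℝ) ≤ θ ^ 3 by positivity)
    linarith)
  have fC1 := clo_failW hμ z X Y n s R1 R T M R' (c := c) (τ := τ) (e := ec) (e2 := e2) (δ := 1 / 25)
    hR1R hT8 hτ0 hT1 he20 (hna n s (by omega) Ω μ z X Y (CfgA_mono ha hcfg)) hecn
  have fC2 := clo_failW hμ z X Y n s R R T M R' (c := c) (τ := τ) (e := ec) (e2 := e2) (δ := 1 / 25)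
    le_rfl hT8 hτ0 hT1 he20 (hnb n s (by omega) Ω μ z X Y (CfgA_mono hb hcfg)) hecn
  obtain ⟨g1, g2⟩ := hnc n s (by omega) Ω μ z X Y (CfgA_mono hcc hcfg)
  have fR1 := ref_failW hμ z Y X n s R T M R' (c := c) (e := er) (e3 := e3) (δ := 1 / 25) hT8 hT1 he30 g1 hern
  have fR2 := ref_failW hμ z X Y n s R T M R' (c := c) (e := er) (e3 := e3) (δ := 1 / 25) hT8 hT1 he30 g2 hern
  have fI := inh_failW hG4 hμ hm X T M K hMK (θ := θ) (τ := τ) (r := r) (δ := 1 / 25) hT1 hθ0 hτ0 (by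
    linarith)
  -- one good path
  obtain ⟨ω, hω0, h0, h1, h2, h3, h4, h5, h6, h7, h8, h9, h10, h11⟩ := pick12 hμ hm (δ := 1 / 25)
    (by norm_num) (fden.trans hed1) (fX1.trans hed1) (fX2.trans hed1) (fY1.trans hed1) (fY2.trans hed1)
    fS1 fS2 fC1 fC2 fR1 fR2 fI
  have hpth : PthW T M s R1 R R' c θ τ e2 e3 r μ z X Y ω := by
    refine ⟨hω0, ?_, ?_, ?_, ?_, ?_, not_not.1 h9, not_not.1 h10, not_not.1 h11⟩
    · rintro ρ (rfl | rfl)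
      · exact den_okW h0 hR1R hT8 hedn halM
      · exact den_okW h0 le_rfl hT8 hedn halM
    · rintro ρ (rfl | rfl)
      · exact pre_okW h1 hR1p (by omega) hedn hθ0.le
      · exact pre_okW h2 hRp (by omega) hedn hθ0.le
    · rintro ρ (rfl | rfl)
      · exact pre_okW h3 hR1p (by omega) hedn hθ0.le
      · exact pre_okW h4 hRp (by omega) hedn hθ0.le
    · rintro ρ (rfl | rfl)
      · exact not_not.1 h5
      · exact not_not.1 h6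
    · rintro ρ (rfl | rfl)
      · exact not_not.1 h7
      · exact not_not.1 h8
  refine pth_falseW hμ hpth hgeo (hcfg.xb ω) (hcfg.yb ω) (hcfg.ang ω hω0) hMK hc hθ0 hT1 (by linarith) hτ0 hτ1
    (by rw [he2]; linarith) hr0 hR1p hRp ?_ ?_ θd hθe hθd2 w hw (by rw [he3]; exact hcnt) hsmall
  · have h12 := mul_le_mul_of_nonneg_right hττ hR1r.le
    linarith
  · have h12 : (0 : ℝ) ≤ R := Nat.cast_nonneg _
    have h13 := mul_le_mul_of_nonneg_right hττ h12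
    have h14 := mul_le_mul_of_nonneg_left hR1R' hθ0.le
    linarith

end

end Pool.Agent.Helper92.WA
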