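import Pool.Agent.Helper92.WA.St2
import Pool.Agent.Helper71.W.CLO

set_option autoImplicit false

namespace Pool.Agent.Helper92.WA

open Finset Pool.Agent.Helper69.RK Pool.Agent.Helper46.WF
open Pool.Agent.Helper61.GL hiding fl
open Pool.Agent.Helper92.W

theorem st_CLOA (hK : ST_K) : ST_CLOA := by
  classical
  intro c e al hc hc1 he ρ
  obtain ⟨R0, hR0⟩ := hK c (e / 16) (e / 16) hc hc1 (by positivity) (by positivity) (ρ + 12)
  refine ⟨R0, fun R hR => ?_⟩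
  obtain ⟨ηK, hηK, nK, hnK⟩ := hR0 R hR
  have hρ : (0 : ℝ) < 64 * ((ρ : ℝ) + 4) := by positivity
  obtain ⟨η, hη⟩ : ∃ η : ℝ, η = min (ηK / 4) (e / (64 * ((ρ : ℝ) + 4))) := ⟨_, rfl⟩
  have hη0 : 0 < η := by
    rw [hη]
    exact lt_min (by positivity) (by positivity)
  have hη1 : η ≤ ηK / 4 := by
    rw [hη]
    exact min_le_left _ _
  have hη2 : η * (64 * ((ρ : ℝ) + 4)) ≤ e := by
    have : η ≤ e / (64 * ((ρ : ℝ) + 4)) := by
      rw [hη]
      exact min_le_right _ _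
    rwa [le_div_iff₀ hρ] at this
  refine ⟨η, hη0, max nK (⌈3 / ηK⌉₊ + 1), fun n s hn Ω _ μ z X Y C => ?_⟩
  have hn1 : nK ≤ n := (le_max_left _ _).trans hn
  have hn2 : ⌈3 / ηK⌉₊ + 1 ≤ n := (le_max_right _ _).trans hn
  have hn3 : 3 ≤ ηK * n := by
    have h1 : (3 / ηK : ℝ) ≤ n := by
      refine (Nat.le_ceil _).trans ?_
      exact_mod_cast (Nat.le_succ _).trans hn2
    rw [div_le_iff₀ hηK] at h1
    linarith
  have hn4 : (1 : ℝ) ≤ n := by
    have : 1 ≤ n := by omega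
    exact_mod_cast this
  have hμ := C.nn
  have hm := C.ms
  obtain ⟨W1, hW1⟩ : ∃ W1 : Ω → ℤ × (Fin 2 → ℝ), W1 = fun ω => (fl n (z ω), Y ω) := ⟨_, rfl⟩
  obtain ⟨W2, hW2⟩ : ∃ W2 : Ω → ℤ × (Fin 2 → ℝ),
    W2 = fun ω => (fl n (z ω + om (X ω) (Y ω) / 2 ^ s), Y ω) := ⟨_, rfl⟩
  obtain ⟨τ, hτ⟩ : ∃ τ : ℕ → ℝ, τ = fun l => (IA μ X W1 l - IA μ X W1 (l + (ρ + 4))) +
    (IA μ X W2 l - IA μ X W2 (l + (ρ + 4))) := ⟨_, rfl⟩
  have hτ0 : ∀ l, 0 ≤ τ l := by
    intro l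
    rw [hτ]
    exact add_nonneg (IA_anti μ hμ X W1 l (ρ + 4)) (IA_anti μ hμ X W2 l (ρ + 4))
  have hτs : ∑ l ∈ range (n + 1), τ l ≤ 4 * ((ρ : ℝ) + 4) * (η * n) := by
    have a1 : ∀ l, IA μ X W1 l ≤ η * n + η * n := by
      intro l
      refine (IA_le μ hμ X W1 l).trans ?_
      rw [hW1]
      exact clo_info μ hμ X Y _ C.i1 C.i3
    have a2 : ∀ l, IA μ X W2 l ≤ η * n + η * n := by
      intro l
      refine (IA_le μ hμ X W2 l).trans ?_
      rw [hW2]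
      exact clo_info μ hμ X Y _ C.i2 C.i3
    have b1 := clo_tel (IA μ X W1) _ (IA_nonneg μ hμ X W1) a1 (ρ + 4) (n + 1)
    have b2 := clo_tel (IA μ X W2) _ (IA_nonneg μ hμ X W2) a2 (ρ + 4) (n + 1)
    rw [hτ, Finset.sum_add_distrib]
    push_cast at b1 b2
    linarith
  obtain ⟨P, hP⟩ : ∃ P : ℕ → ℕ → ℝ, P = fun l j => Pw (cop2 μ (cG n s l z X Y))
    (KE (cop2 μ (cG n s l z X Y)) z X Y c (e / 16) R s j (s + l + ρ + 1)) := ⟨_, rfl⟩
  -- LEMMA K
  have hKl : ∀ l, ∑ j ∈ range (n + 1 - (s + l + ρ + 1)), P l j ≤ e / 16 * n := by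
    intro l
    rw [hP]
    have nn := cp_nn μ hμ (cG n s l z X Y)
    refine hnK n (s + l + ρ + 1) hn1 (Ω × Ω) ((Fin 2 → ℝ) × (Fin 2 → ℝ)) (Fin 2 → ℝ) (Fin 2 → ℤ)
      (cop2 μ (cG n s l z X Y)) (fun w => z w.2) (fun w => (X w.2, X w.1)) (fun w => Y w.2)
      (fun ζ y => om (ζ.1 - ζ.2) y / 2 ^ s) (fun j y => cel j y) nn
      ((cp_mass μ hμ _).trans hm) (fun w => C.zb w.2) ?_ ?_ ?_ ?_ ?_
    · intro w w' _ _
      have h1 : ∀ i, |(X w.2 - X w.1) i| ≤ 64 := by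
        intro i
        have h2 := abs_sub (X w.2 i) (X w.1 i)
        have h3 := C.xb w.2 i
        have h4 := C.xb w.1 i
        rw [Pi.sub_apply]
        linarith
      have h2 := clo_om_le h1 (C.yb w'.2)
      have h3 : (1 : ℝ) ≤ 2 ^ s := one_le_pow₀ (by norm_num)
      have h4 : (1 : ℝ) ≤ 2 ^ ρ := one_le_pow₀ (by norm_num)
      have h5 : (2 : ℝ) ^ (ρ + 12) = 2 ^ ρ * 4096 := by
        rw [pow_add]
        norm_num
      rw [abs_div, abs_of_pos (by positivity : (0 : ℝ) < 2 ^ s), div_le_iff₀ (by positivity), h5]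
      nlinarith
    · intro j w w' _ _ h
      exact clo_cel_ref (Nat.le_succ j) h
    · intro j w0 w w' h0 _ _ h
      have h1 := (cG_eq (cp_supp μ hμ _ h0).1).2.2
      have h2 := clo_om_le (clo_cel_sub h1.symm) (clo_cel_sub h)
      have e1 : om ((X w0.2, X w0.1).1 - (X w0.2, X w0.1).2) (Y w.2) / 2 ^ s -
          om ((X w0.2, X w0.1).1 - (X w0.2, X w0.1).2) (Y w'.2) / 2 ^ s =
          om (X w0.2 - X w0.1) (Y w.2 - Y w'.2) / 2 ^ s := by
        simp only [om, Pi.sub_apply]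
        ring
      rw [e1, abs_div, abs_of_pos (by positivity : (0 : ℝ) < 2 ^ s)]
      have e2 : (2 : ℝ) ^ (j + (s + l + ρ + 1)) = 2 ^ s * (2 ^ l * 2 ^ j * 2 ^ (ρ + 1)) := by
        rw [← pow_add, ← pow_add, ← pow_add]
        congr 1
        ring
      have e3 : |om (X w0.2 - X w0.1) (Y w.2 - Y w'.2)| / 2 ^ s * 2 ^ (j + (s + l + ρ + 1)) =
          |om (X w0.2 - X w0.1) (Y w.2 - Y w'.2)| * (2 ^ l * 2 ^ j * 2 ^ (ρ + 1)) := by
        rw [e2]
        field_simp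
      have e4 : 2 * ((1 / 2 : ℝ) ^ l * (1 / 2) ^ j) * (2 ^ l * 2 ^ j * 2 ^ (ρ + 1)) =
          2 ^ (ρ + 2) := by
        have f1 : ∀ k : ℕ, (1 / 2 : ℝ) ^ k * 2 ^ k = 1 := by
          intro k
          rw [← mul_pow]
          norm_num
        calc 2 * ((1 / 2 : ℝ) ^ l * (1 / 2) ^ j) * (2 ^ l * 2 ^ j * 2 ^ (ρ + 1))
            = ((1 / 2 : ℝ) ^ l * 2 ^ l) * ((1 / 2) ^ j * 2 ^ j) * (2 * 2 ^ (ρ + 1)) := by ring
          _ = 2 ^ (ρ + 2) := by
            rw [f1, f1]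
            ring
      rw [e3]
      refine (mul_le_mul_of_nonneg_right h2 (by positivity)).trans ?_
      rw [e4]
      exact pow_le_pow_right₀ (by norm_num) (by omega)
    · have h1 := clo_tc n s l μ hμ z X Y C.i1 C.i2 C.i3
      have h2 : 4 * (η * n) ≤ ηK * n := by nlinarith
      linarith
    · have h1 := clo_abs n s l μ hμ hm z X Y
      have h2 : Hh (cop2 μ (cG n s l z X Y)) (fun w => fl n (z w.2)) = Hh μ (fun ω => fl n (z ω)) :=
        cp_CH2 μ hμ _ (fun ω => fl n (z ω)) (fun _ => ())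
      rw [h2]
      exact h1.trans (by linarith)
  -- one pair of levels
  have h1 : ∀ l j, ∑ ω, μ ω * (if l + j + s + (ρ + 1) ≤ n ∧ DL μ z c R (l + j + s + (ρ + 1)) ω
      then sl μ Y X j l ρ ω else 0) ≤
      8 / 5 * (e / 16 + τ l) + 8 / 5 * (if j + (s + l + ρ + 1) ≤ n then P l j else 0) := by
    intro l j
    rw [show l + j + s + (ρ + 1) = j + (s + l + ρ + 1) by omega]
    by_cases hj : j + (s + l + ρ + 1) ≤ n
    · rw [if_pos hj]
      have h2 := clo_one n s l j ρ R c (e / 16) μ hμ hm z X Y (by positivity) hj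
      have h3 : ∀ ω, (if j + (s + l + ρ + 1) ≤ n ∧ DL μ z c R (j + (s + l + ρ + 1)) ω
          then sl μ Y X j l ρ ω else 0) =
          (if DL μ z c R (j + (s + l + ρ + 1)) ω then sl μ Y X j l ρ ω else 0) := by
        intro ω
        simp only [hj, true_and]
      simp only [h3]
      rw [hτ, hP, hW1, hW2]
      linarith
    · rw [if_neg hj]
      have h3 : ∀ ω, (if j + (s + l + ρ + 1) ≤ n ∧ DL μ z c R (j + (s + l + ρ + 1)) ω
          then sl μ Y X j l ρ ω else 0) = 0 := by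
        intro ω
        rw [if_neg (fun h => hj h.1)]
      simp only [h3, mul_zero, Finset.sum_const_zero, add_zero]
      have := hτ0 l
      positivity
  have h2 : ∀ l, ∑ j ∈ range (n + 1), ∑ ω, μ ω * (if l + j + s + (ρ + 1) ≤ n ∧
      DL μ z c R (l + j + s + (ρ + 1)) ω then sl μ Y X j l ρ ω else 0) ≤
      (n + 1) * (8 / 5 * (e / 16 + τ l)) + 8 / 5 * (e / 16 * n) := by
    intro l
    refine (Finset.sum_le_sum fun j _ => h1 l j).trans ?_
    rw [Finset.sum_add_distrib, Finset.sum_const, card_range, nsmul_eq_mul, ← Finset.mul_sum,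
      ← Finset.sum_filter]
    have h3 : (range (n + 1)).filter (fun j => j + (s + l + ρ + 1) ≤ n) =
        range (n + 1 - (s + l + ρ + 1)) := by
      ext j
      simp only [mem_filter, mem_range]
      omega
    rw [h3]
    have h4 := hKl l
    rw [Nat.cast_add, Nat.cast_one]
    linarith
  have h3 : ∑ ω, μ ω * ∑ l ∈ range (n + 1), ∑ j ∈ range (n + 1),
      (if l + j + s + (ρ + 1) ≤ n ∧ DL μ z c R (l + j + s + (ρ + 1)) ω then sl μ Y X j l ρ ω
        else 0) = ∑ l ∈ range (n + 1), ∑ j ∈ range (n + 1), ∑ ω, μ ω *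
      (if l + j + s + (ρ + 1) ≤ n ∧ DL μ z c R (l + j + s + (ρ + 1)) ω then sl μ Y X j l ρ ω
        else 0) := by
    simp only [Finset.mul_sum]
    rw [Finset.sum_comm]
    refine Finset.sum_congr rfl fun l _ => ?_
    rw [Finset.sum_comm]
  have h4 : ∑ l ∈ range (n + 1), ((n + 1) * (8 / 5 * (e / 16 + τ l)) + 8 / 5 * (e / 16 * n)) ≤
      e * (n : ℝ) ^ 2 := by
    have e1 : ∑ l ∈ range (n + 1), (((n : ℝ) + 1) * (8 / 5 * (e / 16 + τ l)) + 8 / 5 * (e / 16 * n))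
        = (n + 1) * (8 / 5) * ((n + 1) * (e / 16) + ∑ l ∈ range (n + 1), τ l)
          + (n + 1) * (8 / 5 * (e / 16 * n)) := by
      rw [Finset.sum_add_distrib, ← Finset.mul_sum, ← Finset.mul_sum, Finset.sum_add_distrib,
        Finset.sum_const, Finset.sum_const, card_range, nsmul_eq_mul, nsmul_eq_mul]
      push_cast
      ring
    rw [e1]
    have h5 : 4 * ((ρ : ℝ) + 4) * (η * n) ≤ e / 16 * n := by nlinarith
    have h6 : ∑ l ∈ range (n + 1), τ l ≤ e / 16 * n := hτs.trans h5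
    have h7 : ((n : ℝ) + 1) * (8 / 5) * ((n + 1) * (e / 16) + ∑ l ∈ range (n + 1), τ l) ≤
        ((n : ℝ) + 1) * (8 / 5) * ((n + 1) * (e / 16) + e / 16 * n) :=
      mul_le_mul_of_nonneg_left (by linarith) (by positivity)
    have h8 : ((n : ℝ) + 1) * (8 / 5) * ((n + 1) * (e / 16) + e / 16 * n) +
        (n + 1) * (8 / 5 * (e / 16 * n)) ≤ e * (n : ℝ) ^ 2 := by
      have h9 : ((n : ℝ) + 1) * (8 / 5) * ((n + 1) * (e / 16) + e / 16 * n) +
        (n + 1) * (8 / 5 * (e / 16 * n)) = e * ((n + 1) * (3 * n + 1) / 10) := by ring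
      rw [h9]
      refine mul_le_mul_of_nonneg_left ?_ he.le
      nlinarith
    linarith
  rw [h3]
  exact (Finset.sum_le_sum fun l _ => h2 l).trans h4

end Pool.Agent.Helper92.WA
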