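import Pool.Agent.Helper92.WA.St
import Pool.Agent.Helper56.W.DEN

set_option autoImplicit false

namespace Pool.Agent.Helper92.WA

open Finset Pool.Agent.Helper69.RK Pool.Agent.Helper61.GL Pool.Agent.Helper46.WF
open Pool.Agent.Helper92.W

/-- a path: grid of step `q`, prefix sums -/
theorem den_pathA (c : ℝ) (hc : 0 < c) (hc1 : c ≤ 1) (ε : ℝ) (_ : 0 < ε) (R : ℕ) (hR : 1 ≤ R) (n q : ℕ)
    (hq : 1 ≤ q) (hq2 : (q : ℝ) ≤ ε / 16 * n) (hn : 16 * (R : ℝ) ≤ ε * n)
    (η δ : ℝ) (hη : 0 ≤ η) (hη2 : η ≤ c * ε / 64) (hδ2 : δ ≤ c * ε / 128)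
    (g h : ℕ → ℝ) (h0 : ∀ l, 0 ≤ h l)
    (x : ℝ) (hg : ∀ a b : ℕ, x ≤ a → a ≤ b → b ≤ n → g b - g a ≤ (1 - c) * ((b : ℝ) - a) + η * n)
    (hL : ∀ j : ℕ, j * q ≤ n → |∑ l ∈ range (j * q), (g (l + R) - g l - h l)| ≤ δ * n)
    (a b : ℕ) (hxa : x ≤ a) (hb : b ≤ n) (hab : (a : ℝ) + ε * n ≤ b) :
    c / 4 * ((b : ℝ) - a) ≤
      (((Ico a b).filter (fun t => R ≤ t ∧ c * R / 2 ≤ R - h (t - R))).card : ℝ) := by
  have hR' : (1 : ℝ) ≤ R := by exact_mod_cast hR
  have hbR : R ≤ b := by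
    have : (R : ℝ) ≤ b := by
      have : (0 : ℝ) ≤ a := Nat.cast_nonneg _
      linarith
    exact_mod_cast this
  -- end points
  obtain ⟨j, hj1, hj2⟩ : ∃ j : ℕ, a ≤ j * q ∧ R + j * q ≤ a + R + q := by
    refine ⟨(a + q - 1) / q, ?_, ?_⟩
    · have h1 := Nat.div_add_mod (a + q - 1) q
      have h2 := Nat.mod_lt (a + q - 1) (show q > 0 by omega)
      have h3 : q * ((a + q - 1) / q) = ((a + q - 1) / q) * q := Nat.mul_comm _ _
      omega
    · have h1 := Nat.div_mul_le_self (a + q - 1) q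
      omega
  obtain ⟨k, hk1, hk2⟩ : ∃ k : ℕ, R + k * q ≤ b ∧ b ≤ R + k * q + q := by
    refine ⟨(b - R) / q, ?_, ?_⟩
    · have h1 := Nat.div_mul_le_self (b - R) q
      omega
    · have h1 := Nat.div_add_mod (b - R) q
      have h2 := Nat.mod_lt (b - R) (show q > 0 by omega)
      have h3 : q * ((b - R) / q) = ((b - R) / q) * q := Nat.mul_comm _ _
      omega
  have hj2' : (R : ℝ) + ((j * q : ℕ) : ℝ) ≤ a + R + q := by exact_mod_cast hj2
  have hk2' : (b : ℝ) ≤ R + ((k * q : ℕ) : ℝ) + q := by exact_mod_cast hk2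
  have hjk : j * q ≤ k * q := by
    have : ((j * q : ℕ) : ℝ) ≤ ((k * q : ℕ) : ℝ) := by nlinarith
    exact_mod_cast this
  have hkn : k * q ≤ n := by omega
  have hn0 : (0 : ℝ) ≤ n := Nat.cast_nonneg _
  have h1 := den_int c hc hc1 R hR (η * n) (by positivity) g h (j * q) (k * q) hjk h0
    (by
      intro i hi
      have := hg (j * q + i) (k * q + i) (hxa.trans (by exact_mod_cast (by omega : a ≤ j * q + i))) (by omega) (by omega)
      refine this.trans (le_of_eq ?_)
      push_cast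
      ring)
    (2 * δ * n)
    (by
      have e1 := Finset.sum_range_add_sum_Ico (fun l => g (l + R) - g l - h l) hjk
      have e2 : ∑ l ∈ Ico (j * q) (k * q), (g (l + R) - g l - h l) =
          ∑ l ∈ range (k * q), (g (l + R) - g l - h l) - ∑ l ∈ range (j * q), (g (l + R) - g l - h l) := by
        linarith
      rw [e2]
      refine (abs_sub _ _).trans ?_
      have := hL j (hjk.trans hkn)
      have := hL k hkn
      linarith)
  have h2 : ((Ico (j * q) (k * q)).filter (fun l => c * (R : ℝ) / 2 ≤ R - h l)).card ≤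
      ((Ico a b).filter (fun t => R ≤ t ∧ c * (R : ℝ) / 2 ≤ R - h (t - R))).card := by
    apply Finset.card_le_card_of_injOn (fun l => l + R)
    · intro l hl
      rw [Finset.mem_coe, Finset.mem_filter, Finset.mem_Ico] at hl
      rw [Finset.mem_coe, Finset.mem_filter, Finset.mem_Ico]
      refine ⟨⟨?_, ?_⟩, ?_, ?_⟩
      · show a ≤ l + R
        omega
      · show l + R < b
        omega
      · show R ≤ l + R
        omega
      · show c * (R : ℝ) / 2 ≤ R - h (l + R - R)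
        rw [Nat.add_sub_cancel]
        exact hl.2
    · intro l _ l' _ hll
      have : l + R = l' + R := hll
      omega
  have h3 : (((Ico (j * q) (k * q)).filter (fun l => c * (R : ℝ) / 2 ≤ R - h l)).card : ℝ) ≤
      (((Ico a b).filter (fun t => R ≤ t ∧ c * (R : ℝ) / 2 ≤ R - h (t - R))).card : ℝ) := by
    exact_mod_cast h2
  refine le_trans ?_ (h1.trans h3)
  have h4 : (b : ℝ) - a - R - 2 * q ≤ ((k * q : ℕ) : ℝ) - ((j * q : ℕ) : ℝ) := by linarith
  have h5 : c / 2 * ((b : ℝ) - a - R - 2 * q) ≤ c / 2 * (((k * q : ℕ) : ℝ) - ((j * q : ℕ) : ℝ)) :=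
    mul_le_mul_of_nonneg_left h4 (by linarith)
  have h6 : c * (R + 2 * q) / 2 ≤ c * ε * n * (3 / 32) := by nlinarith
  have h7 : η * n ≤ c * ε / 64 * n := mul_le_mul_of_nonneg_right hη2 hn0
  have h8 : δ * n ≤ c * ε / 128 * n := mul_le_mul_of_nonneg_right hδ2 hn0
  have h9 : c * (ε * n) ≤ c * ((b : ℝ) - a) := mul_le_mul_of_nonneg_left (by linarith) hc.le
  nlinarith

theorem st_DENA : ST_LLN → ST_DENA := by
  classical
  intro hLLN c al ε hc hc1 hε R hR
  obtain ⟨C, hC⟩ := hLLN R R hR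
  set δ : ℝ := c * ε / 128 with hδ
  have hδ0 : 0 < δ := by positivity
  set η : ℝ := min (c * ε / 64) (ε / 2) with hη
  have hη0 : 0 < η := by
    rw [hη]
    exact lt_min (by positivity) (by positivity)
  -- number of grid points
  obtain ⟨J, hJ⟩ : ∃ J : ℕ, 32 / ε + 1 < J := exists_nat_gt _
  obtain ⟨n1, hn1⟩ : ∃ n1 : ℕ, 16 * (R : ℝ) / ε + 32 / ε + 4 * J * |C| / (δ ^ 2 * ε) + 1 < n1 :=
    exists_nat_gt _
  refine ⟨η, hη0, n1, ?_⟩
  intro n hn Ω _ μ z hμ hm hz hU
  have hn' : (n1 : ℝ) ≤ n := by exact_mod_cast hn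
  have hA0 : 0 ≤ 16 * (R : ℝ) / ε := by positivity
  have hB0 : 0 ≤ 32 / ε := by positivity
  have hC0 : 0 ≤ 4 * J * |C| / (δ ^ 2 * ε) := by positivity
  have hn1' : (1 : ℝ) ≤ n := by linarith
  have hn0 : (0 : ℝ) < n := by linarith
  have hRn : 16 * (R : ℝ) ≤ ε * n := by
    have : 16 * (R : ℝ) / ε ≤ n := by linarith
    rw [div_le_iff₀ hε] at this
    linarith
  have h32 : 32 ≤ ε * n := by
    have : 32 / ε ≤ n := by linarith
    rw [div_le_iff₀ hε] at this
    linarith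
  -- the step of the grid
  set q : ℕ := ⌊ε / 16 * n⌋₊ with hq
  have hq1 : (q : ℝ) ≤ ε / 16 * n := Nat.floor_le (by positivity)
  have hq2 : ε / 16 * n < q + 1 := Nat.lt_floor_add_one _
  have hq3 : 1 ≤ q := by
    have : (1 : ℝ) < (q : ℝ) + 1 := by linarith
    have : (0 : ℝ) < q := by linarith
    exact_mod_cast this
  have hq4 : ε / 32 * n ≤ q := by linarith
  have hjJ : ∀ j : ℕ, j * q ≤ n → j < J := by
    intro j hj
    have h1 : (j : ℝ) * q ≤ n := by exact_mod_cast hj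
    have h2 : (j : ℝ) * (ε / 32 * n) ≤ n := by
      have := mul_le_mul_of_nonneg_left hq4 (Nat.cast_nonneg j : (0 : ℝ) ≤ (j : ℝ))
      linarith
    have h3 : (j : ℝ) * (ε / 32) ≤ 1 := by
      have : (j : ℝ) * (ε / 32) * n ≤ 1 * n := by linarith
      exact le_of_mul_le_mul_right this hn0
    have h4 : (j : ℝ) ≤ 32 / ε := by
      rw [le_div_iff₀ hε]
      linarith
    have h5 : (j : ℝ) < J := by linarith
    exact_mod_cast h5
  set g : Ω → ℕ → ℝ := fun ω l => - Real.logb 2 (pr μ (fun ω' => fl l (z ω')) ω) with hg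
  set h : Ω → ℕ → ℝ := fun ω l => LH μ (fun ω' => fl (l + R) (z ω')) (fun ω' => fl l (z ω')) ω with hh
  -- law of large numbers for prefix sums
  set E : ℕ → Ω → Prop := fun j ω => j * q ≤ n ∧
    (δ * n) ^ 2 < (∑ l ∈ range (j * q), (g ω (l + R) - g ω l - h ω l)) ^ 2 with hEdef
  have hE : ∀ j, j < J → Pw μ (E j) ≤ ε / (2 * J) := by
    intro j hj
    by_cases hjq : j * q ≤ n
    swap
    · have : Pw μ (E j) ≤ 0 := by
        unfold Pw
        refine le_of_eq (Finset.sum_eq_zero fun ω _ => ?_)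
        rw [if_neg]
        intro h1
        exact hjq h1.1
      have h2 : 0 ≤ ε / (2 * (J : ℝ)) := by positivity
      linarith
    have h1 := hC Ω ℤ μ (fun l ω => fl l (z ω)) hμ hm (fun l ω ω' e => den_fl_of l 1 _ _ e)
      (fun l ω => den_card z l R ω _ _) n (range (j * q)) (Finset.range_subset_range.mpr hjq)
    have h2 : ∑ ω, μ ω * (∑ l ∈ range (j * q), (g ω (l + R) - g ω l - h ω l)) ^ 2 ≤ C * (n + 1) := by
      refine le_trans (le_of_eq ?_) h1
      refine Finset.sum_congr rfl fun ω _ => ?_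
      congr 2
      refine Finset.sum_congr rfl fun l _ => ?_
      rw [den_srp μ z l R ω]
    have h3 := Pw_markov μ hμ (fun ω => (∑ l ∈ range (j * q), (g ω (l + R) - g ω l - h ω l)) ^ 2)
      (fun ω _ => sq_nonneg _) (t := (δ * n) ^ 2) (by positivity) h2
    have h4 : Pw μ (E j) ≤ C * (n + 1) / (δ * n) ^ 2 := by
      refine le_trans (Pw_mono μ hμ ?_) h3
      intro ω _ h5
      exact h5.2
    refine h4.trans ?_
    have hJ0 : (0 : ℝ) < J := by linarith
    rw [div_le_div_iff₀ (by positivity) (by positivity)]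
    have h5 : C * (n + 1) ≤ |C| * (2 * n) :=
      mul_le_mul (le_abs_self C) (by linarith) (by linarith) (abs_nonneg C)
    have h6 : 4 * J * |C| ≤ δ ^ 2 * ε * n := by
      have : 4 * J * |C| / (δ ^ 2 * ε) ≤ n := by linarith
      rw [div_le_iff₀ (by positivity)] at this
      linarith
    calc C * (n + 1) * (2 * J) ≤ |C| * (2 * n) * (2 * J) := mul_le_mul_of_nonneg_right h5 (by positivity)
      _ = (4 * J * |C|) * n := by ring
      _ ≤ (δ ^ 2 * ε * n) * n := mul_le_mul_of_nonneg_right h6 hn0.le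
      _ = ε * (δ * n) ^ 2 := by ring
  have hP := den_union μ hμ _ E J η (ε / (2 * J)) hU hE
  have hJ0 : (0 : ℝ) < J := by linarith
  have e1 : (J : ℝ) * (ε / (2 * J)) = ε / 2 := by
    field_simp
  rw [e1] at hP
  have hη3 : η ≤ ε / 2 := min_le_right _ _
  refine le_trans (Pw_mono μ hμ ?_) (hP.trans (by linarith))
  intro ω _ hω
  by_contra hcon
  push Not at hcon
  obtain ⟨hc1', hc2'⟩ := hcon
  obtain ⟨a, b, hal, hb, hab, hcard⟩ := hω
  have h1 := den_pathA c hc hc1 ε hε R hR n q hq3 hq1 hRn η δ hη0.le (min_le_left _ _) le_rfl (g ω) (h ω)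
    (fun l => den_LH_nonneg μ hμ _ _ ω) (al * n)
    (by
      intro a b hal hab hb
      have h2 := hc1' a b hal hab hb
      obtain ⟨r, rfl⟩ := Nat.exists_eq_add_of_le hab
      rw [den_srp μ z a r ω] at h2
      exact h2)
    (by
      intro j hj
      by_contra h3
      push Not at h3
      have h4 := hc2' j (hjJ j hj)
      apply h4
      refine ⟨hj, ?_⟩
      have h5 : 0 ≤ δ * n := by positivity
      rw [← sq_abs (∑ l ∈ range (j * q), (g ω (l + R) - g ω l - h ω l))]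
      exact pow_lt_pow_left₀ h3 h5 (by norm_num))
    a b hal hb hab
  have h2 : ((Ico a b).filter (fun t => R ≤ t ∧ c * (R : ℝ) / 2 ≤ R - h ω (t - R))) =
      ((Ico a b).filter (fun t => DL μ z c R t ω)) := by
    apply Finset.filter_congr
    intro t _
    unfold DL de
    constructor
    · rintro ⟨h3, h4⟩
      refine ⟨h3, ?_⟩
      rw [hh] at h4
      simp only [Nat.sub_add_cancel h3] at h4
      exact h4
    · rintro ⟨h3, h4⟩
      refine ⟨h3, ?_⟩
      rw [hh]
      simp only [Nat.sub_add_cancel h3]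
      exact h4
  rw [h2] at h1
  linarith

end Pool.Agent.Helper92.WA
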