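import Pool.Agent.Helper92.WA.St2
import Pool.Agent.Helper52.W.REF

set_option autoImplicit false

namespace Pool.Agent.Helper92.WA

open Finset Pool.Agent.Helper69.RK Pool.Agent.Helper61.GL Pool.Agent.Helper46.WF
open Pool.Agent.Helper92.W

noncomputable section

theorem st_REFA : ST_K → ST_REFA := by
  intro hK c e al hc hc1 he ρ
  obtain ⟨R0, hR0⟩ := hK c (e / 4) (e / 4) hc hc1 (by positivity) (by positivity) (ρ + 11)
  refine ⟨R0, fun R hR => ?_⟩
  obtain ⟨η, hη, n0, hn0⟩ := hR0 R hR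
  refine ⟨η / 2, by positivity, max n0 (max 1 (⌈2 / η⌉₊)), ?_⟩
  intro n s hn Ω _ μ z X Y hC
  have hn1 : n0 ≤ n := (le_max_left _ _).trans hn
  have hn2 : 1 ≤ n := (le_max_left _ _).trans ((le_max_right _ _).trans hn)
  have hn3 : ⌈2 / η⌉₊ ≤ n := (le_max_right _ _).trans ((le_max_right _ _).trans hn)
  have hn4 : 2 / η ≤ n := (Nat.le_ceil _).trans (by exact_mod_cast hn3)
  have hn5 : 2 ≤ η * n := by
    rw [div_le_iff₀ hη] at hn4
    linarith
  have hn6 : (1 : ℝ) ≤ n := by exact_mod_cast hn2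
  obtain ⟨nn, ms, zb, xb, yb, ang, i1, i2, i3, tx, ty, un⟩ := hC
  obtain ⟨q1, q2⟩ := ref_ent μ nn ms n s z X Y (η / 2) i1 i2 i3
  have hcond : ∀ (U : Ω → Fin 2 → ℝ), CH μ (fun ω => fl n (z ω + om (X ω) (Y ω) / 2 ^ s)) U ≤
      Hh μ (fun ω => fl n (z ω)) + η * n := by
    intro U
    have h1 : CH μ (fun ω => fl n (z ω + om (X ω) (Y ω) / 2 ^ s)) U ≤
        Hh μ (fun ω => fl n (z ω + om (X ω) (Y ω) / 2 ^ s)) := ch_cond μ nn _ _ _ (fun _ _ _ _ _ => rfl)
    linarith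
  have hfin : ∀ t : ℝ, t ≤ e / 4 * (n + 1) + e / 4 * n → t ≤ e * n := by
    intro t ht
    nlinarith
  constructor
  · apply hfin
    apply ref_avg μ nn ms z X Y c (e / 4) (e / 4) (by positivity) R s ρ n (fun x y => om x y / 2 ^ s) (-1) (by norm_num)
    · intro u v
      rw [om_swap v u]
      ring
    · refine hn0 n (s + ρ + 1) hn1 Ω (Fin 2 → ℝ) (Fin 2 → ℝ) (Fin 2 → ℤ) μ z X Y (fun x y => om x y / 2 ^ s)
        (fun l y => cel l y) nn ms zb ?_ ?_ ?_ ?_ ?_
      · intro ω ω' _ _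
        exact ref_size (xb ω) (yb ω') s (ρ + 11) (by omega)
      · intro l ω ω' _ _ h
        exact ref_nest l _ _ h
      · intro l ω0 ω ω' _ _ _ h
        exact ref_osc (xb ω0) l s ρ h
      · linarith
      · exact hcond X
  · apply hfin
    apply ref_avg μ nn ms z Y X c (e / 4) (e / 4) (by positivity) R s ρ n (fun y x => om x y / 2 ^ s) 1 (by norm_num)
    · intro u v
      rw [one_mul]
    · refine hn0 n (s + ρ + 1) hn1 Ω (Fin 2 → ℝ) (Fin 2 → ℝ) (Fin 2 → ℤ) μ z Y X (fun y x => om x y / 2 ^ s)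
        (fun l y => cel l y) nn ms zb ?_ ?_ ?_ ?_ ?_
      · intro ω ω' _ _
        exact ref_size (xb ω') (yb ω) s (ρ + 11) (by omega)
      · intro l ω ω' _ _ h
        exact ref_nest l _ _ h
      · intro l ω0 ω ω' _ _ _ h
        have h1 := ref_osc (x := Y ω0) (y := X ω) (y' := X ω') (yb ω0) l s ρ h
        have e1 : ∀ x : Fin 2 → ℝ, om x (Y ω0) / 2 ^ s = - (om (Y ω0) x / 2 ^ s) := by
          intro x
          rw [om_swap x (Y ω0)]
          ring
        show |om (X ω) (Y ω0) / 2 ^ s - om (X ω') (Y ω0) / 2 ^ s| * 2 ^ (l + (s + ρ + 1)) ≤ 2 ^ (ρ + 11)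
        rw [e1, e1]
        have e2 : -(om (Y ω0) (X ω) / 2 ^ s) - -(om (Y ω0) (X ω') / 2 ^ s) =
            -(om (Y ω0) (X ω) / 2 ^ s - om (Y ω0) (X ω') / 2 ^ s) := by ring
        rw [e2, abs_neg]
        exact h1
      · have e1 : Hh μ (fun ω => (fl n (z ω), Y ω, X ω)) = Hh μ (fun ω => (fl n (z ω), X ω, Y ω)) := by
          apply ch_congr_left
          intro ω ω' _ _ _
          simp only [Prod.mk.injEq]
          tauto
        rw [e1]
        linarith
      · exact hcond Y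

end

end Pool.Agent.Helper92.WA
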