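import Pool.Agent.Helper92.W.All
import Pool.Agent.Helper92.WA.DenA
import Pool.Agent.Helper92.WA.CloA
import Pool.Agent.Helper92.WA.RefA
import Pool.Agent.Helper92.WA.RedA
import Pool.Agent.Helper92.WA.Asm

/-! # Theorem W (p = 2) with a window -/

set_option autoImplicit false

namespace Pool.Agent.Helper92.WA

open Pool.Agent.Helper92.W

theorem st_WA : ST_WA := st_REDA (st_ASMA (st_DENA st_LLN) (st_PRE st_LLN) st_SLO (st_CLOA st_K)
  (st_REFA st_K) st_G2 st_G3 st_G4 st_G5)

end Pool.Agent.Helper92.WA
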