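import Pool.Agent.Helper92.W.St

/-!
# Lemma W with a window: `z` is unsaturated only above the level `al * n`
-/

set_option autoImplicit false

namespace Pool.Agent.Helper92.WA

open Finset Pool.Agent.Helper69.RK Pool.Agent.Helper61.GL Pool.Agent.Helper46.WF
open Pool.Agent.Helper92.W

noncomputable section

section defs

variable {Ω : Type} [Fintype Ω]

/-- one block of absorbed bilinear noise over the base `F`, `z` unsaturated above the level `al * n` -/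
structure BlkA (n : ℕ) (η c al : ℝ) {φ : Type} (μ : Ω → ℝ) (F : Ω → φ) (z : Ω → ℝ)
    (X Y : Ω → Fin 2 → ℝ) : Prop where
  nn : ∀ ω, 0 ≤ μ ω
  ms : mass μ = 1
  zb : ∀ ω, 0 ≤ z ω ∧ z ω < 1
  xb : ∀ ω i, |X ω i| ≤ 1
  yb : ∀ ω i, |Y ω i| ≤ 1
  i1 : CH μ (fun ω => fl n (z ω)) F ≤ CH μ (fun ω => fl n (z ω)) (fun ω => (X ω, Y ω, F ω)) + η * n
  i2 : CH μ (fun ω => fl n (z ω + om (X ω) (Y ω))) F ≤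
    CH μ (fun ω => fl n (z ω + om (X ω) (Y ω))) (fun ω => (X ω, Y ω, F ω)) + η * n
  i3 : CH μ X F ≤ CH μ X (fun ω => (Y ω, F ω)) + η * n
  tx : (1 - η) * n ≤ CH μ (fun ω => fl n (X ω 0)) F
  ty : (1 - η) * n ≤ CH μ (fun ω => fl n (Y ω 0)) F
  un : Pw μ (fun ω => ∃ a b : ℕ, al * n ≤ a ∧ a ≤ b ∧ b ≤ n ∧ (1 - c) * ((b : ℝ) - a) + η * n <
    srp μ (fun ω' => fl b (z ω')) (fun ω' => (fl a (z ω'), F ω')) ω) ≤ η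

/-- the visible configuration -/
structure CfgA (n s : ℕ) (η c al : ℝ) (μ : Ω → ℝ) (z : Ω → ℝ) (X Y : Ω → Fin 2 → ℝ) : Prop where
  nn : ∀ ω, 0 ≤ μ ω
  ms : mass μ = 1
  zb : ∀ ω, 0 ≤ z ω ∧ z ω < 1
  xb : ∀ ω i, |X ω i| ≤ 32
  yb : ∀ ω i, |Y ω i| ≤ 32
  ang : ∀ ω, μ ω ≠ 0 → 1 / 8 ≤ |om (X ω) (Y ω)|
  i1 : Hh μ (fun ω => fl n (z ω)) ≤ CH μ (fun ω => fl n (z ω)) (fun ω => (X ω, Y ω)) + η * n
  i2 : Hh μ (fun ω => fl n (z ω + om (X ω) (Y ω) / 2 ^ s)) ≤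
    CH μ (fun ω => fl n (z ω + om (X ω) (Y ω) / 2 ^ s)) (fun ω => (X ω, Y ω)) + η * n
  i3 : Hh μ X ≤ CH μ X Y + η * n
  tx : (1 - η) * n ≤ Hh μ (fun ω => fl n (X ω 0))
  ty : (1 - η) * n ≤ Hh μ (fun ω => fl n (Y ω 0))
  un : Pw μ (fun ω => ∃ a b : ℕ, al * n ≤ a ∧ a ≤ b ∧ b ≤ n ∧ (1 - c) * ((b : ℝ) - a) + η * n <
    srp μ (fun ω' => fl b (z ω')) (fun ω' => fl a (z ω')) ω) ≤ η

end defs

/-- **THEOREM W** with a window -/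
def ST_WA : Prop := ∀ c κ al ε : ℝ, 0 < c → c ≤ 1 → 0 < κ → κ < 1 → al < 1 → 0 < ε →
  ∃ η : ℝ, 0 < η ∧ ∃ n0 : ℕ, ∀ n : ℕ, n0 ≤ n → ∀ (Ω φ : Type) [Fintype Ω] (μ : Ω → ℝ) (F : Ω → φ)
    (z : Ω → ℝ) (X Y : Ω → Fin 2 → ℝ), BlkA n η c al μ F z X Y →
      Pw μ (fun ω => (2 : ℝ) ^ (-(κ * n)) < |om (X ω) (Y ω)|) ≤ ε

/-- there is no visible configuration -/
def ST_CFGA : Prop := ∀ c κ al : ℝ, 0 < c → c ≤ 1 → 0 < κ → κ < 1 → al < 1 →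
  ∃ η : ℝ, 0 < η ∧ ∃ n0 : ℕ, ∀ n s : ℕ, n0 ≤ n → (s : ℝ) ≤ κ * n → ∀ (Ω : Type) [Fintype Ω] (μ : Ω → ℝ)
    (z : Ω → ℝ) (X Y : Ω → Fin 2 → ℝ), ¬ CfgA n s η c al μ z X Y

open Classical in
/-- DENSITY of the deficient levels in all macroscopic intervals above `al * n`, along most paths -/
def ST_DENA : Prop := ∀ c al ε : ℝ, 0 < c → c ≤ 1 → 0 < ε → ∀ R : ℕ, 1 ≤ R → ∃ η : ℝ, 0 < η ∧ ∃ n0 : ℕ,
  ∀ n : ℕ, n0 ≤ n → ∀ (Ω : Type) [Fintype Ω] (μ : Ω → ℝ) (z : Ω → ℝ),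
    (∀ ω, 0 ≤ μ ω) → mass μ = 1 → (∀ ω, 0 ≤ z ω ∧ z ω < 1) →
    Pw μ (fun ω => ∃ a b : ℕ, al * n ≤ a ∧ a ≤ b ∧ b ≤ n ∧ (1 - c) * ((b : ℝ) - a) + η * n <
      srp μ (fun ω' => fl b (z ω')) (fun ω' => fl a (z ω')) ω) ≤ η →
    Pw μ (fun ω => ∃ a b : ℕ, al * n ≤ a ∧ b ≤ n ∧ (a : ℝ) + ε * n ≤ b ∧
      ((((Ico a b).filter (fun t => DL μ z c R t ω)).card : ℝ) < c / 4 * ((b : ℝ) - a))) ≤ ε

end

end Pool.Agent.Helper92.WA
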