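import Pool.Agent.Helper92.WA.Gl
import Pool.Agent.Helper97.WF.Core

/-! Numeric core and directions in a high window. -/

set_option autoImplicit false

namespace Pool.Agent.Helper92.WA

open Finset Pool.Agent.Helper97.WF

/-- deficits along an antidiagonal -/
theorem antidiagW (T M K : ℕ) (hK : M ≤ K * T) (R θ : ℝ) (hR : 0 ≤ R) (E E' : ℕ → ℝ) (hθ : 0 ≤ θ) (h1 : 1 ≤ θ * T)
    (hE0 : ∀ l, 0 ≤ E l) (hE2 : ∀ l, E l ≤ 2 * R) (hE0' : ∀ l, 0 ≤ E' l) (hE2' : ∀ l, E' l ≤ 2 * R)
    (hS : ∀ N, N ≤ M + 8 * T → R * N - θ * R * T ≤ ∑ l ∈ range N, E l)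
    (hS' : ∀ N, N ≤ M + 8 * T → R * N - θ * R * T ≤ ∑ l ∈ range N, E' l)
    (N : ℕ) (hN : N ≤ M + 8 * T)
    (hcard : (((range (N + 1)).filter (fun l => 2 * R + θ * R < E l + E' (N - l))).card : ℝ) ≤ θ * T) :
    ∑ l ∈ range (N + 1), |E l - (2 * R - E' (N - l))| ≤ (26 + 2 * K) * θ * R * T := by
  have hT : 1 ≤ T := by
    rcases Nat.eq_zero_or_pos T with h | h
    · subst h; rw [Nat.cast_zero, mul_zero] at h1; linarith
    · exact h
  have hT' : (1 : ℝ) ≤ T := by exact_mod_cast hT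
  have hN' : (N : ℝ) ≤ (K + 8) * T := by
    have h : N ≤ (K + 8) * T := by
      rw [Nat.add_mul]
      omega
    exact_mod_cast h
  have hRT : R ≤ θ * R * T := by nlinarith
  have h2 : ∀ l ∈ range (N + 1), |E l - (2 * R - E' (N - l))| ≤
      -(E l + E' (N - l) - 2 * R) + 2 * θ * R + (if 2 * R + θ * R < E l + E' (N - l) then 4 * R else 0) := by
    intro l _
    have a1 := hE0 l
    have a2 := hE2 l
    have a3 := hE0' (N - l)
    have a4 := hE2' (N - l)
    have a5 : 0 ≤ θ * R := by positivity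
    split_ifs with h
    · rw [abs_le]; constructor <;> nlinarith
    · rw [abs_le]; constructor <;> nlinarith
  have h3 := sum_le_sum h2
  rw [sum_add_distrib, sum_add_distrib, ← sum_filter, sum_const, sum_const, card_range, nsmul_eq_mul,
    nsmul_eq_mul] at h3
  have h4 : ∑ l ∈ range (N + 1), -(E l + E' (N - l) - 2 * R) =
      2 * R * (N + 1) - ∑ l ∈ range (N + 1), E l - ∑ l ∈ range (N + 1), E' l := by
    have e := Finset.sum_range_reflect E' (N + 1)
    have e2 : ∑ l ∈ range (N + 1), E' (N - l) = ∑ l ∈ range (N + 1), E' l := by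
      rw [← e]
      apply sum_congr rfl
      intro l _
      have : N + 1 - 1 - l = N - l := by omega
      rw [this]
    rw [← e2]
    have e3 : ∀ l ∈ range (N + 1), -(E l + E' (N - l) - 2 * R) = 2 * R - E l - E' (N - l) := by
      intro l _; ring
    rw [sum_congr rfl e3, sum_sub_distrib, sum_sub_distrib, sum_const, card_range, nsmul_eq_mul]
    push_cast; ring
  rw [h4] at h3
  have h5 := hS N hN
  have h6 := hS' N hN
  have h7 : ∑ l ∈ range N, E l ≤ ∑ l ∈ range (N + 1), E l := by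
    rw [sum_range_succ]; linarith [hE0 N]
  have h8 : ∑ l ∈ range N, E' l ≤ ∑ l ∈ range (N + 1), E' l := by
    rw [sum_range_succ]; linarith [hE0' N]
  push_cast at h3
  have h9 : (((range (N + 1)).filter (fun l => 2 * R + θ * R < E l + E' (N - l))).card : ℝ) * (4 * R) ≤
      θ * T * (4 * R) := mul_le_mul_of_nonneg_right hcard (by linarith)
  have h10 : ((N : ℝ) + 1) * (2 * θ * R) ≤ ((K + 9) * T) * (2 * θ * R) :=
    mul_le_mul_of_nonneg_right (by linarith) (by positivity)
  nlinarith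

/-- an element of `B` just below `5 T` -/
theorem dense_topW (c θ : ℝ) (hc : 0 < c) (hθ2 : θ ≤ 1 / 2) (T M : ℕ) (h1 : 1 ≤ θ * T) (B : Finset ℕ)
    (hB : ∀ a b : ℕ, M + 2 * T ≤ a → a ≤ b → b ≤ M + 5 * T → θ * T ≤ (b : ℝ) - a →
      c * ((b : ℝ) - a) ≤ ((B.filter (fun N => a ≤ N ∧ N < b)).card : ℝ)) :
    ∃ N ∈ B, M + 4 * T ≤ N ∧ N < M + 5 * T ∧ ((M + 5 * T : ℕ) : ℝ) ≤ (N + 1 : ℕ) + 2 * θ * T := by
  have h2 : (⌈θ * T⌉₊ : ℝ) < θ * T + 1 := Nat.ceil_lt_add_one (by linarith)
  have h3 := Nat.le_ceil (θ * T)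
  have h4 : (⌈θ * T⌉₊ : ℝ) ≤ T := by nlinarith
  have h5 : ⌈θ * T⌉₊ ≤ T := by exact_mod_cast h4
  have h6 : 1 ≤ ⌈θ * T⌉₊ := by
    have : (0 : ℝ) < θ * T := by linarith
    exact Nat.ceil_pos.mpr this
  have h7 : ((M + 5 * T - ⌈θ * T⌉₊ : ℕ) : ℝ) = ((M + 5 * T : ℕ) : ℝ) - ⌈θ * T⌉₊ := by
    rw [Nat.cast_sub (by omega)]
  obtain ⟨N, hN, a, b⟩ := dense_ne c hc B (M + 5 * T - ⌈θ * T⌉₊) (M + 5 * T) (by omega)
    (hB _ _ (by omega) (by omega) le_rfl (by rw [h7]; linarith))
  refine ⟨N, hN, by omega, b, ?_⟩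
  have h8 : M + 5 * T ≤ N + ⌈θ * T⌉₊ := by omega
  have h9 : ((M + 5 * T : ℕ) : ℝ) ≤ (N : ℝ) + ⌈θ * T⌉₊ := by exact_mod_cast h8
  push_cast at h9 ⊢
  linarith

/-- adding the top levels -/
theorem sum_topW (T M N : ℕ) (hN : N < M + 5 * T) (g : ℕ → ℝ) (A K θ : ℝ) (hK : 0 ≤ K) (hg : ∀ l, g l ≤ K)
    (h : ∑ l ∈ range (N + 1), g l ≤ A) (ht : ((M + 5 * T : ℕ) : ℝ) ≤ (N + 1 : ℕ) + 2 * θ * T) :
    ∑ l ∈ range (M + 5 * T), g l ≤ A + 2 * θ * T * K := by
  rw [← Finset.sum_range_add_sum_Ico _ (show N + 1 ≤ M + 5 * T by omega)]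
  have h1 : ∑ l ∈ Ico (N + 1) (M + 5 * T), g l ≤ ∑ l ∈ Ico (N + 1) (M + 5 * T), K := sum_le_sum (fun l _ => hg l)
  rw [sum_const, Nat.card_Ico, nsmul_eq_mul, Nat.cast_sub (by omega)] at h1
  have h2 : (((M + 5 * T : ℕ) : ℝ) - (N + 1 : ℕ)) * K ≤ 2 * θ * T * K :=
    mul_le_mul_of_nonneg_right (by linarith) hK
  linarith

/-- NUMERIC CORE: (2.3)-(2.6) of Lemma W, with exceptional levels in the slow variation -/
theorem num_coreW (c : ℝ) (hc : 0 < c) (T M K : ℕ) (hK : M ≤ K * T) (R θ : ℝ) (hR : 0 ≤ R) (hθ2 : θ ≤ 1 / 2) (h1 : 1 ≤ θ * T)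
    (E E' : ℕ → ℝ) (B : Finset ℕ)
    (hE0 : ∀ l, 0 ≤ E l) (hE2 : ∀ l, E l ≤ 2 * R) (hE0' : ∀ l, 0 ≤ E' l) (hE2' : ∀ l, E' l ≤ 2 * R)
    (hL : (((range (M + 4 * T)).filter (fun l => θ * R < |E l - E (l + 1)|)).card : ℝ) ≤ θ * T)
    (hS : ∀ N, N ≤ M + 8 * T → R * N - θ * R * T ≤ ∑ l ∈ range N, E l)
    (hS' : ∀ N, N ≤ M + 8 * T → R * N - θ * R * T ≤ ∑ l ∈ range N, E' l)
    (hG : ∀ N ∈ B, M + 2 * T ≤ N → N < M + 5 * T →
      (((range (N + 1)).filter (fun l => 2 * R + θ * R < E l + E' (N - l))).card : ℝ) ≤ θ * T)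
    (hB : ∀ a b : ℕ, M + 2 * T ≤ a → a ≤ b → b ≤ M + 5 * T → θ * T ≤ (b : ℝ) - a →
      c * ((b : ℝ) - a) ≤ ((B.filter (fun N => a ≤ N ∧ N < b)).card : ℝ)) :
    ∑ l ∈ range (M + 5 * T), |E l - R| ≤ (2 * (26 + 2 * K) * ((K + 1) * (1 + 5 * K) * (264 / c + 3)) + 4) * θ * R * T ∧
    ∑ l ∈ range (M + 5 * T), |E' l - R| ≤ (2 * (26 + 2 * K) * ((K + 1) * (1 + 5 * K) * (264 / c + 3)) + 4) * θ * R * T := by
  have hT : 1 ≤ T := by
    rcases Nat.eq_zero_or_pos T with h | h
    · subst h; rw [Nat.cast_zero, mul_zero] at h1; linarith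
    · exact h
  have hT' : (1 : ℝ) ≤ T := by exact_mod_cast hT
  have hθ : 0 < θ := by
    by_contra h
    push Not at h
    have : θ * T ≤ 0 := mul_nonpos_of_nonpos_of_nonneg h (by linarith)
    linarith
  have hRT : R ≤ θ * R * T := by nlinarith
  have hβ : 0 ≤ (26 + 2 * K) * θ * R * T := by positivity
  have hB4 : c * T ≤ ((B.filter (fun N => M + 4 * T ≤ N ∧ N < M + 5 * T)).card : ℝ) := by
    have := hB (M + 4 * T) (M + 5 * T) (by omega) (by omega) le_rfl (by push_cast; nlinarith)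
    refine le_trans (le_of_eq ?_) this
    push_cast; ring
  have hne : ∃ N ∈ B, M + 2 * T ≤ N ∧ N < M + 3 * T :=
    dense_ne c hc B (M + 2 * T) (M + 3 * T) (by omega)
      (hB (M + 2 * T) (M + 3 * T) le_rfl (by omega) (by omega) (by push_cast; nlinarith))
  obtain ⟨v, hv⟩ := gl_constW (fun x y : ℝ => |x - y|) (fun x y => abs_nonneg _) (fun x => by simp)
    (fun x y => abs_sub_comm x y) (fun x y z => abs_sub_le x y z) E (fun l => 2 * R - E' l) T M hT c
    ((26 + 2 * K) * θ * R * T) hc hβ B hB4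
    (fun N hN a b => antidiagW T M K hK R θ hR E E' hθ.le h1 hE0 hE2 hE0' hE2' hS hS' N (by omega) (hG N hN a b))
    (by
      have a1 : ∑ l ∈ range (M + 4 * T), |E l - E (l + 1)| ≤
          ∑ l ∈ range (M + 4 * T), (θ * R + (if θ * R < |E l - E (l + 1)| then 2 * R else 0)) := by
        apply sum_le_sum
        intro l _
        have b1 : |E l - E (l + 1)| ≤ 2 * R := by
          rw [abs_le]; constructor <;> linarith [hE0 l, hE2 l, hE0 (l + 1), hE2 (l + 1)]
        have b2 : 0 ≤ θ * R := by positivity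
        split_ifs with h
        · linarith
        · push Not at h
          linarith
      rw [sum_add_distrib, ← sum_filter, sum_const, sum_const, card_range, nsmul_eq_mul, nsmul_eq_mul] at a1
      push_cast at a1
      refine a1.trans ?_
      have a2 : (((range (M + 4 * T)).filter (fun l => θ * R < |E l - E (l + 1)|)).card : ℝ) * (2 * R) ≤
          θ * T * (2 * R) := mul_le_mul_of_nonneg_right hL (by linarith)
      have hMK : (M : ℝ) ≤ K * T := by exact_mod_cast hK
      have a3 : ((M : ℝ) + 4 * T) * (θ * R) ≤ (K * T + 4 * T) * (θ * R) :=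
        mul_le_mul_of_nonneg_right (by linarith) (by positivity)
      have a4 : 0 ≤ (K : ℝ) * (θ * R * T) := by positivity
      have a5 : 0 ≤ θ * R * T := by positivity
      linarith) hne K hK
  obtain ⟨N, hN, hN1, hN2, hN3⟩ := dense_topW c θ hc hθ2 T M h1 B hB
  obtain ⟨h5, h6⟩ := hv N hN hN1 hN2
  set C := ((K + 1) * (1 + 5 * K) * (264 / c + 3)) * ((26 + 2 * K) * θ * R * T) with hCdef
  have hC0 : 0 ≤ C := by positivity
  have hN1' : 4 * (T : ℝ) ≤ N := by exact_mod_cast (by omega : 4 * T ≤ N)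
  have hS1 := hS N (by omega)
  have hS1' := hS' N (by omega)
  have hS2 : ∑ l ∈ range N, E l ≤ ∑ l ∈ range (N + 1), E l := by rw [sum_range_succ]; linarith [hE0 N]
  have hS2' : ∑ l ∈ range N, E' l ≤ ∑ l ∈ range (N + 1), E' l := by rw [sum_range_succ]; linarith [hE0' N]
  -- the value is `R`
  have h7 : ((N : ℝ) + 1) * |v - R| ≤ C + 2 * (θ * R * T) := by
    have a1 : ∑ l ∈ range (N + 1), (E l - v) ≤ C := le_trans (sum_le_sum (fun l _ => le_abs_self _)) h5
    have a2 : -C ≤ ∑ l ∈ range (N + 1), (2 * R - E' l - v) := by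
      have : ∑ l ∈ range (N + 1), -(|2 * R - E' l - v|) ≤ ∑ l ∈ range (N + 1), (2 * R - E' l - v) :=
        sum_le_sum (fun l _ => neg_abs_le _)
      rw [sum_neg_distrib] at this
      linarith
    rw [sum_sub_distrib, sum_const, card_range, nsmul_eq_mul] at a1
    rw [sum_sub_distrib, sum_sub_distrib, sum_const, sum_const, card_range, nsmul_eq_mul, nsmul_eq_mul] at a2
    push_cast at a1 a2
    have a3 : ((N : ℝ) + 1) * |v - R| = |((N : ℝ) + 1) * (v - R)| := by
      rw [abs_mul, abs_of_nonneg (by positivity : (0 : ℝ) ≤ (N : ℝ) + 1)]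
    rw [a3, abs_le]
    constructor <;> nlinarith
  have h8 : ∑ l ∈ range (N + 1), |E l - R| ≤ 2 * C + 2 * (θ * R * T) := by
    have : ∑ l ∈ range (N + 1), |E l - R| ≤ ∑ l ∈ range (N + 1), (|E l - v| + |v - R|) :=
      sum_le_sum (fun l _ => abs_sub_le _ _ _)
    rw [sum_add_distrib, sum_const, card_range, nsmul_eq_mul] at this
    push_cast at this
    linarith
  have h9 : ∑ l ∈ range (N + 1), |E' l - R| ≤ 2 * C + 2 * (θ * R * T) := by
    have : ∑ l ∈ range (N + 1), |E' l - R| ≤ ∑ l ∈ range (N + 1), (|2 * R - E' l - v| + |v - R|) := by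
      apply sum_le_sum
      intro l _
      have e1 : E' l - R = -(2 * R - E' l - v) - (v - R) := by ring
      rw [e1]
      exact (abs_sub _ _).trans (by rw [abs_neg])
    rw [sum_add_distrib, sum_const, card_range, nsmul_eq_mul] at this
    push_cast at this
    linarith
  have hC2 : 2 * C = 2 * (26 + 2 * K) * ((K + 1) * (1 + 5 * K) * (264 / c + 3)) * (θ * R * T) := by rw [hCdef]; ring
  constructor
  · have := sum_topW T M N hN2 (fun l => |E l - R|) _ R θ hR
      (fun l => by rw [abs_le]; constructor <;> linarith [hE0 l, hE2 l]) h8 hN3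
    refine this.trans (le_of_eq ?_)
    rw [hC2]; ring
  · have := sum_topW T M N hN2 (fun l => |E' l - R|) _ R θ hR
      (fun l => by rw [abs_le]; constructor <;> linarith [hE0' l, hE2' l]) h9 hN3
    refine this.trans (le_of_eq ?_)
    rw [hC2]; ring

open Classical in
/-- DIRECTIONS (2.8): `G l j` = the pair of levels `(l, j)` is good, `th l j` its direction -/
theorem dir_coreW {X : Type*} (d : X → X → ℝ) (hd0 : ∀ x y, 0 ≤ d x y) (hd1 : ∀ x y, d x y ≤ 1) (hdd : ∀ x, d x x = 0)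
    (hds : ∀ x y, d x y = d y x) (hdt : ∀ x y z, d x z ≤ d x y + d y z)
    (c : ℝ) (hc : 0 < c) (T M K : ℕ) (hK : M ≤ K * T) (θ w : ℝ) (hw : 0 ≤ w) (hθ2 : θ ≤ 1 / 2) (h1 : 1 ≤ θ * T)
    (G : ℕ → ℕ → Prop) (th : ℕ → ℕ → X) (B : Finset ℕ)
    (hl : ∀ l j j', G l j → G l j' → d (th l j) (th l j') ≤ w)
    (hj : ∀ l l' j, G l j → G l' j → d (th l j) (th l' j) ≤ w)
    (hs : (((range (M + 4 * T)).filter (fun l => ¬ ∀ j j', G l j → G (l + 1) j' →
      d (th l j) (th (l + 1) j') ≤ w)).card : ℝ) ≤ θ * T)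
    (hN : ∀ N ∈ B, M + 2 * T ≤ N → N < M + 5 * T → (((range (N + 1)).filter (fun l => ¬ G l (N - l))).card : ℝ) ≤ θ * T)
    (hB : ∀ a b : ℕ, M + 2 * T ≤ a → a ≤ b → b ≤ M + 5 * T → θ * T ≤ (b : ℝ) - a →
      c * ((b : ℝ) - a) ≤ ((B.filter (fun N => a ≤ N ∧ N < b)).card : ℝ))
    (ε : ℝ) (hε : 0 < ε) :
    ∃ x0 : X,
      (((range (M + 5 * T)).filter (fun l => ¬ ((∃ j, G l j) ∧ ∀ j, G l j → d (th l j) x0 ≤ ε + w))).card : ℝ) ≤
        (3 * θ + (((K + 1) * (1 + 5 * K) * (264 / c + 3)) * ((10 + 2 * K) * w + 3 * θ) + 2 * θ) / ε) * T ∧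
      (((range (M + 5 * T)).filter (fun j => ¬ ((∃ l, G l j) ∧ ∀ l, G l j → d (th l j) x0 ≤ ε + w))).card : ℝ) ≤
        (3 * θ + (((K + 1) * (1 + 5 * K) * (264 / c + 3)) * ((10 + 2 * K) * w + 3 * θ) + 2 * θ) / ε) * T := by
  have hT : 1 ≤ T := by
    rcases Nat.eq_zero_or_pos T with h | h
    · subst h; rw [Nat.cast_zero, mul_zero] at h1; linarith
    · exact h
  have hT' : (1 : ℝ) ≤ T := by exact_mod_cast hT
  have hθ : 0 < θ := by
    by_contra h
    push Not at h
    have : θ * T ≤ 0 := mul_nonpos_of_nonpos_of_nonneg h (by linarith)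
    linarith
  have hB4 : c * T ≤ ((B.filter (fun N => M + 4 * T ≤ N ∧ N < M + 5 * T)).card : ℝ) := by
    have := hB (M + 4 * T) (M + 5 * T) (by omega) (by omega) le_rfl (by push_cast; nlinarith)
    refine le_trans (le_of_eq ?_) this
    push_cast; ring
  have hne : ∃ N ∈ B, M + 2 * T ≤ N ∧ N < M + 3 * T :=
    dense_ne c hc B (M + 2 * T) (M + 3 * T) (by omega)
      (hB (M + 2 * T) (M + 3 * T) le_rfl (by omega) (by omega) (by push_cast; nlinarith))
  obtain ⟨N, hNB, hN1, hN2, hN3⟩ := dense_topW c θ hc hθ2 T M h1 B hB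
  have hNc := hN N hNB (by omega) hN2
  set f : ℕ → X := fun l => if h : ∃ j, G l j then th l h.choose else th 0 0 with hf
  set f' : ℕ → X := fun j => if h : ∃ l, G l j then th h.choose j else th 0 0 with hf'
  have hfe : ∀ l j, G l j → d (f l) (th l j) ≤ w := by
    intro l j h
    have h' : ∃ j, G l j := ⟨j, h⟩
    have : f l = th l h'.choose := by rw [hf]; beta_reduce; rw [dif_pos h']
    rw [this]
    exact hl l _ _ h'.choose_spec h
  have hfe' : ∀ l j, G l j → d (f' j) (th l j) ≤ w := by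
    intro l j h
    have h' : ∃ l, G l j := ⟨l, h⟩
    have : f' j = th h'.choose j := by rw [hf']; beta_reduce; rw [dif_pos h']
    rw [this]
    exact hj _ l j h'.choose_spec h
  -- levels without partner
  have hno : ∀ n, n ≤ N + 1 → (((range n).filter (fun l => ¬ ∃ j, G l j)).card : ℝ) ≤ θ * T := by
    intro n hn
    refine le_trans ?_ hNc
    norm_cast
    apply card_le_card
    intro l hlm
    rw [mem_filter, mem_range] at hlm ⊢
    exact ⟨by omega, fun h => hlm.2 ⟨_, h⟩⟩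
  have hno' : (((range (N + 1)).filter (fun j => ¬ ∃ l, G l j)).card : ℝ) ≤ θ * T := by
    refine le_trans ?_ hNc
    norm_cast
    apply card_le_card_of_injOn (fun j => N - j)
    · intro j hjm
      rw [mem_coe, mem_filter, mem_range] at hjm
      have e0 : N - j < N + 1 := by omega
      refine mem_coe.mpr (mem_filter.mpr ⟨mem_range.mpr e0, fun h => hjm.2 ?_⟩)
      have e : N - (N - j) = j := by omega
      beta_reduce at h
      rw [e] at h
      exact ⟨_, h⟩
    · intro j hjm j' hjm' h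
      rw [mem_coe, mem_filter, mem_range] at hjm hjm'
      have h' : N - j = N - j' := h
      omega
  set β := ((10 + 2 * K) * w + 3 * θ) * T with hβd
  have hβ : 0 ≤ β := by positivity
  have hA : ∀ N ∈ B, M + 2 * T ≤ N → N < M + 5 * T → ∑ l ∈ range (N + 1), d (f l) (f' (N - l)) ≤ β := by
    intro N hNB a b
    have c1 := hN N hNB a b
    have c2 : ∀ l ∈ range (N + 1), d (f l) (f' (N - l)) ≤ 2 * w + (if ¬ G l (N - l) then 1 else 0) := by
      intro l _
      by_cases h : G l (N - l)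
      · rw [if_neg (not_not.mpr h)]
        have := hdt (f l) (th l (N - l)) (f' (N - l))
        have e1 := hfe l (N - l) h
        have e2 := hfe' l (N - l) h
        rw [hds] at e2
        linarith
      · rw [if_pos h]
        linarith [hd1 (f l) (f' (N - l))]
    have c3 := sum_le_sum c2
    rw [sum_add_distrib, ← sum_filter, sum_const, sum_const, card_range, nsmul_eq_mul, nsmul_eq_mul, mul_one] at c3
    have c4 : ((N + 1 : ℕ) : ℝ) ≤ (K + 5) * T := by
      have : N + 1 ≤ (K + 5) * T := by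
        rw [Nat.add_mul]
        omega
      exact_mod_cast this
    have c5 : ((N + 1 : ℕ) : ℝ) * (2 * w) ≤ (K + 5) * T * (2 * w) := mul_le_mul_of_nonneg_right c4 (by positivity)
    rw [hβd]
    nlinarith
  have hC : ∑ l ∈ range (M + 4 * T), d (f l) (f (l + 1)) ≤ 2 * β := by
    have c2 : ∀ l ∈ range (M + 4 * T), d (f l) (f (l + 1)) ≤ 3 * w +
        ((if ¬ (∀ j j', G l j → G (l + 1) j' → d (th l j) (th (l + 1) j') ≤ w) then 1 else 0) +
        ((if ¬ (∃ j, G l j) then 1 else 0) + (if ¬ (∃ j, G (l + 1) j) then 1 else 0))) := by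
      intro l _
      by_cases h1 : ∀ j j', G l j → G (l + 1) j' → d (th l j) (th (l + 1) j') ≤ w
      · by_cases h2 : ∃ j, G l j
        · by_cases h3 : ∃ j, G (l + 1) j
          · obtain ⟨j, hj1⟩ := h2
            obtain ⟨j', hj2⟩ := h3
            have e1 := hfe l j hj1
            have e2 := hfe (l + 1) j' hj2
            have e3 := h1 j j' hj1 hj2
            have e4 := hdt (f l) (th l j) (f (l + 1))
            have e5 := hdt (th l j) (th (l + 1) j') (f (l + 1))
            rw [hds] at e2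
            rw [if_neg (not_not.mpr h1), if_neg (not_not.mpr ⟨j, hj1⟩), if_neg (not_not.mpr ⟨j', hj2⟩)]
            linarith
          · rw [if_neg (not_not.mpr h1), if_neg (not_not.mpr h2), if_pos h3]
            linarith [hd1 (f l) (f (l + 1))]
        · rw [if_neg (not_not.mpr h1), if_pos h2]
          have := hd1 (f l) (f (l + 1))
          split_ifs <;> linarith
      · rw [if_pos h1]
        have := hd1 (f l) (f (l + 1))
        split_ifs <;> linarith
    have c3 := sum_le_sum c2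
    rw [sum_add_distrib, sum_add_distrib, sum_add_distrib, ← sum_filter, ← sum_filter, ← sum_filter, sum_const,
      sum_const, sum_const, sum_const, card_range, nsmul_eq_mul, nsmul_eq_mul, nsmul_eq_mul, nsmul_eq_mul, mul_one,
      mul_one, mul_one] at c3
    have c4 := hno (M + 4 * T) (by omega)
    have c5 : (((range (M + 4 * T)).filter (fun l => ¬ ∃ j, G (l + 1) j)).card : ℝ) ≤ θ * T := by
      refine le_trans ?_ (hno (M + 4 * T + 1) (by omega))
      norm_cast
      apply card_le_card_of_injOn (fun l => l + 1)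
      · intro l hlm
        rw [mem_coe, mem_filter, mem_range] at hlm
        have e0 : l + 1 < M + 4 * T + 1 := by omega
        exact mem_coe.mpr (mem_filter.mpr ⟨mem_range.mpr e0, hlm.2⟩)
      · intro l _ l' _ h
        have h' : l + 1 = l' + 1 := h
        omega
    push_cast at c3
    rw [hβd]
    have hMK : (M : ℝ) ≤ K * T := by exact_mod_cast hK
    have c6 : ((M : ℝ) + 4 * T) * (3 * w) ≤ (K * T + 4 * T) * (3 * w) :=
      mul_le_mul_of_nonneg_right (by linarith) (by positivity)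
    have c7 : 0 ≤ (K : ℝ) * (w * T) := by positivity
    have c8 : 0 ≤ w * T := by positivity
    have c9 : 0 ≤ θ * T := by positivity
    linarith
  obtain ⟨x0, hx⟩ := gl_constW d hd0 hdd hds hdt f f' T M hT c β hc hβ B hB4 hA hC hne K hK
  obtain ⟨h5, h6⟩ := hx N hNB hN1 hN2
  refine ⟨x0, ?_, ?_⟩
  · have a1 := sum_topW T M N hN2 (fun l => d (f l) x0) _ 1 θ zero_le_one (fun l => hd1 _ _) h5 hN3
    have a2 := card_le_of_sum (M + 5 * T) (fun l => d (f l) x0) (fun l => hd0 _ _) _ ε hε a1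
    have a3 : ∑ l ∈ range (M + 5 * T), (if ¬ (∃ j, G l j) then (1 : ℝ) else 0) ≤ θ * T + 2 * θ * T * 1 := by
      apply sum_topW T M N hN2 _ _ 1 θ zero_le_one
      · intro l; split_ifs <;> norm_num
      · rw [← sum_filter, sum_const, nsmul_eq_mul, mul_one]
        exact hno (N + 1) le_rfl
      · exact hN3
    rw [← sum_filter, sum_const, nsmul_eq_mul, mul_one] at a3
    have a4 : (range (M + 5 * T)).filter (fun l => ¬ ((∃ j, G l j) ∧ ∀ j, G l j → d (th l j) x0 ≤ ε + w)) ⊆
        (range (M + 5 * T)).filter (fun l => ¬ ∃ j, G l j) ∪ (range (M + 5 * T)).filter (fun l => ε < d (f l) x0) := by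
      intro l hlm
      rw [mem_filter] at hlm
      rw [mem_union, mem_filter, mem_filter]
      by_cases h7 : ∃ j, G l j
      · right
        refine ⟨hlm.1, ?_⟩
        by_contra h8
        push Not at h8
        apply hlm.2
        refine ⟨h7, fun j hg => ?_⟩
        have e1 := hfe l j hg
        have e2 := hdt (th l j) (f l) x0
        rw [hds] at e1
        linarith
      · exact Or.inl ⟨hlm.1, h7⟩
    have a5 := (card_le_card a4).trans (card_union_le _ _)
    have a6 : (((range (M + 5 * T)).filter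
        (fun l => ¬ ((∃ j, G l j) ∧ ∀ j, G l j → d (th l j) x0 ≤ ε + w))).card : ℝ) ≤
        ((range (M + 5 * T)).filter (fun l => ¬ ∃ j, G l j)).card +
        ((range (M + 5 * T)).filter (fun l => ε < d (f l) x0)).card := by exact_mod_cast a5
    refine a6.trans ((add_le_add a3 a2).trans (le_of_eq ?_))
    rw [hβd]; field_simp; ring
  · have a1 := sum_topW T M N hN2 (fun l => d (f' l) x0) _ 1 θ zero_le_one (fun l => hd1 _ _) h6 hN3
    have a2 := card_le_of_sum (M + 5 * T) (fun l => d (f' l) x0) (fun l => hd0 _ _) _ ε hε a1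
    have a3 : ∑ l ∈ range (M + 5 * T), (if ¬ (∃ l', G l' l) then (1 : ℝ) else 0) ≤ θ * T + 2 * θ * T * 1 := by
      apply sum_topW T M N hN2 _ _ 1 θ zero_le_one
      · intro l; split_ifs <;> norm_num
      · rw [← sum_filter, sum_const, nsmul_eq_mul, mul_one]
        exact hno'
      · exact hN3
    rw [← sum_filter, sum_const, nsmul_eq_mul, mul_one] at a3
    have a4 : (range (M + 5 * T)).filter (fun j => ¬ ((∃ l, G l j) ∧ ∀ l, G l j → d (th l j) x0 ≤ ε + w)) ⊆
        (range (M + 5 * T)).filter (fun j => ¬ ∃ l, G l j) ∪ (range (M + 5 * T)).filter (fun j => ε < d (f' j) x0) := by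
      intro j hjm
      rw [mem_filter] at hjm
      rw [mem_union, mem_filter, mem_filter]
      by_cases h7 : ∃ l, G l j
      · right
        refine ⟨hjm.1, ?_⟩
        by_contra h8
        push Not at h8
        apply hjm.2
        refine ⟨h7, fun l hg => ?_⟩
        have e1 := hfe' l j hg
        have e2 := hdt (th l j) (f' j) x0
        rw [hds] at e1
        linarith
      · exact Or.inl ⟨hjm.1, h7⟩
    have a5 := (card_le_card a4).trans (card_union_le _ _)
    have a6 : (((range (M + 5 * T)).filter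
        (fun j => ¬ ((∃ l, G l j) ∧ ∀ l, G l j → d (th l j) x0 ≤ ε + w))).card : ℝ) ≤
        ((range (M + 5 * T)).filter (fun j => ¬ ∃ l, G l j)).card +
        ((range (M + 5 * T)).filter (fun j => ε < d (f' j) x0)).card := by exact_mod_cast a5
    refine a6.trans ((add_le_add a3 a2).trans (le_of_eq ?_))
    rw [hβd]; field_simp; ring

end Pool.Agent.Helper92.WA
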