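import Pool.Agent.Helper92.WA.Core
import Pool.Agent.Helper92.WA.St
import Pool.Agent.Helper92.W.Det

set_option autoImplicit false

namespace Pool.Agent.Helper92.WA

open Finset Pool.Agent.Helper69.RK Pool.Agent.Helper61.GL Pool.Agent.Helper46.WF Pool.Agent.Helper97.WF
open Pool.Agent.Helper92.W

open Classical in
/-- GOOD ANTIDIAGONALS are dense, with a bound for the total number of bad pairs -/
theorem dense_totW (c θ e : ℝ) (hθ : 0 < θ) (T M : ℕ) (hT : 1 ≤ T) (he : 2 * e ≤ c * θ ^ 2)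
    (B₁ : Finset ℕ) (P : ℕ → ℕ → Prop)
    (hB : ∀ a b : ℕ, M + 2 * T ≤ a → a ≤ b → b ≤ M + 5 * T → θ * T ≤ (b : ℝ) - a →
      c * ((b : ℝ) - a) ≤ ((B₁.filter (fun N => a ≤ N ∧ N < b)).card : ℝ))
    (hP : ∑ N ∈ B₁.filter (fun N => N < M + 5 * T),
      (((range (N + 1)).filter (fun l => P l (N - l))).card : ℝ) ≤ e * (T : ℝ) ^ 2) :
    ∀ a b : ℕ, M + 2 * T ≤ a → a ≤ b → b ≤ M + 5 * T → θ * T ≤ (b : ℝ) - a →
      c / 2 * ((b : ℝ) - a) ≤ (((B₁.filter (fun N => (((range (N + 1)).filter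
        (fun l => P l (N - l))).card : ℝ) ≤ θ * T)).filter (fun N => a ≤ N ∧ N < b)).card : ℝ) := by
  intro a b ha hab hb hθab
  have hT' : (1 : ℝ) ≤ T := by exact_mod_cast hT
  have hT0 : (0 : ℝ) < T := by linarith
  have hθT : 0 < θ * T := by positivity
  set bad := (B₁.filter (fun N => N < M + 5 * T)).filter (fun N => θ * T <
    (((range (N + 1)).filter (fun l => P l (N - l))).card : ℝ)) with hbad
  have h1 : (bad.card : ℝ) * (θ * T) ≤ e * (T : ℝ) ^ 2 := by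
    refine le_trans ?_ hP
    calc (bad.card : ℝ) * (θ * T) = ∑ N ∈ bad, θ * T := by rw [sum_const, nsmul_eq_mul]
      _ ≤ ∑ N ∈ bad, (((range (N + 1)).filter (fun l => P l (N - l))).card : ℝ) :=
          sum_le_sum fun N hN => (mem_filter.1 hN).2.le
      _ ≤ _ := sum_le_sum_of_subset_of_nonneg (filter_subset _ _) (fun _ _ _ => Nat.cast_nonneg _)
  have h2 : (bad.card : ℝ) ≤ c / 2 * (θ * T) := by
    have h3 : (bad.card : ℝ) * (θ * T) ≤ c / 2 * (θ * T) * (θ * T) := by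
      refine h1.trans ?_
      nlinarith [mul_le_mul_of_nonneg_right he (sq_nonneg (T : ℝ))]
    exact le_of_mul_le_mul_right h3 hθT
  have h4 : B₁.filter (fun N => a ≤ N ∧ N < b) ⊆ ((B₁.filter (fun N => (((range (N + 1)).filter
        (fun l => P l (N - l))).card : ℝ) ≤ θ * T)).filter (fun N => a ≤ N ∧ N < b)) ∪ bad := by
    intro N hN
    rw [mem_filter] at hN
    rw [mem_union, mem_filter, mem_filter, hbad, mem_filter, mem_filter]
    by_cases h5 : (((range (N + 1)).filter (fun l => P l (N - l))).card : ℝ) ≤ θ * T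
    · exact Or.inl ⟨⟨hN.1, h5⟩, hN.2⟩
    · exact Or.inr ⟨⟨hN.1, lt_of_lt_of_le hN.2.2 hb⟩, not_le.1 h5⟩
  have h6 := (card_le_card h4).trans (card_union_le _ _)
  have h7 : ((B₁.filter (fun N => a ≤ N ∧ N < b)).card : ℝ) ≤ (((B₁.filter (fun N => (((range (N + 1)).filter
        (fun l => P l (N - l))).card : ℝ) ≤ θ * T)).filter (fun N => a ≤ N ∧ N < b)).card : ℝ) + bad.card := by
    exact_mod_cast h6
  have h8 := hB a b ha hab hb hθab
  have hc : 0 ≤ c / 2 := by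
    by_contra hc
    push Not at hc
    have h9 : (0 : ℝ) ≤ bad.card := Nat.cast_nonneg _
    have : c / 2 * (θ * T) < 0 := mul_neg_of_neg_of_pos hc hθT
    linarith
  have h10 : c / 2 * (θ * T) ≤ c / 2 * ((b : ℝ) - a) := mul_le_mul_of_nonneg_left hθab hc
  linarith

noncomputable section

open Classical in
/-- properties of one path -/
structure PthW (T M s R1 R R' : ℕ) (c θ τ e2 e3 r : ℝ) {Ω : Type} [Fintype Ω] (μ : Ω → ℝ) (z : Ω → ℝ)
    (X Y : Ω → Fin 2 → ℝ) (ω : Ω) : Prop where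
  sup : μ ω ≠ 0
  den : ∀ ρ, (ρ = R1 ∨ ρ = R) → ∀ a b : ℕ, M + 2 * T ≤ a → a ≤ b → b ≤ M + 5 * T → θ * T ≤ (b : ℝ) - a →
    c / 4 * ((b : ℝ) - a) ≤ (((Ico a b).filter (fun N => DL μ z c R' (N + s + (ρ + 1)) ω)).card : ℝ)
  preX : ∀ ρ : ℕ, (ρ = R1 ∨ ρ = R) → ∀ N : ℕ, N ≤ M + 8 * T →
    (ρ : ℝ) * N - θ * ρ * T ≤ ∑ l ∈ range N, eL μ X ρ l ω
  preY : ∀ ρ : ℕ, (ρ = R1 ∨ ρ = R) → ∀ N : ℕ, N ≤ M + 8 * T →
    (ρ : ℝ) * N - θ * ρ * T ≤ ∑ l ∈ range N, eL μ Y ρ l ω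
  slo : ∀ ρ : ℕ, (ρ = R1 ∨ ρ = R) → (((range (M + 4 * T)).filter (fun l =>
    θ * ρ < |eL μ X ρ l ω - eL μ X ρ (l + 1) ω|)).card : ℝ) ≤ θ * T
  clo : ∀ ρ : ℕ, (ρ = R1 ∨ ρ = R) →
    ∑ N ∈ (range (M + 5 * T)).filter (fun N => DL μ z c R' (N + s + (ρ + 1)) ω),
      (((range (N + 1)).filter (fun l => (τ ^ 2 / 4) ^ 2 < sl μ Y X (N - l) l ρ ω)).card : ℝ) ≤ e2 * (T : ℝ) ^ 2
  refX : (((range (M + 5 * T)).filter (fun j => DL μ z c R' (j + s + (R + 1)) ω ∧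
    1 / 16 < nl μ Y j R (X ω) ω)).card : ℝ) ≤ e3 * T
  refY : (((range (M + 5 * T)).filter (fun l => DL μ z c R' (l + s + (R + 1)) ω ∧
    1 / 16 < nl μ X l R (Y ω) ω)).card : ℝ) ≤ e3 * T
  inh : (((range (M + 4 * T)).filter (fun l =>
    Str (lw μ X l ω) (fun ω' => fr l (X ω')) (hat (lw μ X l ω) (fun ω' => fr l (X ω')) r (τ ^ 2)) r (τ ^ 2) ∧
    ¬ Str (lw μ X (l + 1) ω) (fun ω' => fr (l + 1) (X ω'))
      (hat (lw μ X l ω) (fun ω' => fr l (X ω')) r (τ ^ 2)) (2 * r) τ)).card : ℝ) ≤ θ * T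

variable {Ω : Type} [Fintype Ω]

open Classical in
/-- the good antidiagonals for the window `ρ` -/
def BBW (T M s ρ R' : ℕ) (c θ τ : ℝ) (μ : Ω → ℝ) (z : Ω → ℝ) (X Y : Ω → Fin 2 → ℝ) (ω : Ω) : Finset ℕ :=
  ((range (M + 5 * T)).filter (fun N => DL μ z c R' (N + s + (ρ + 1)) ω)).filter (fun N =>
    (((range (N + 1)).filter (fun l => (τ ^ 2 / 4) ^ 2 < sl μ Y X (N - l) l ρ ω)).card : ℝ) ≤ θ * T)

/-- the constant of the numeric core -/
def K1W (c : ℝ) (K : ℕ) : ℝ := 2 * (26 + 2 * K) * ((K + 1) * (1 + 5 * K) * (264 / (c / 8) + 3)) + 4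

theorem BBW_dense {T M s R1 R R' ρ : ℕ} {c θ τ e2 e3 r : ℝ} {μ : Ω → ℝ} {z : Ω → ℝ}
    {X Y : Ω → Fin 2 → ℝ} {ω : Ω} (h : PthW T M s R1 R R' c θ τ e2 e3 r μ z X Y ω) (hθ : 0 < θ) (hT : 1 ≤ T)
    (he2 : 2 * e2 ≤ c / 4 * θ ^ 2) (hρ : ρ = R1 ∨ ρ = R) :
    ∀ a b : ℕ, M + 2 * T ≤ a → a ≤ b → b ≤ M + 5 * T → θ * T ≤ (b : ℝ) - a →
      c / 8 * ((b : ℝ) - a) ≤ (((BBW T M s ρ R' c θ τ μ z X Y ω).filter (fun N => a ≤ N ∧ N < b)).card : ℝ) := by
  classical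
  intro a b ha hab hb hθab
  have h1 := dense_totW (c / 4) θ e2 hθ T M hT he2
    ((range (M + 5 * T)).filter (fun N => DL μ z c R' (N + s + (ρ + 1)) ω))
    (fun l j => (τ ^ 2 / 4) ^ 2 < sl μ Y X j l ρ ω) (by
      intro a b ha hab hb hθab
      refine (h.den ρ hρ a b ha hab hb hθab).trans (le_of_eq ?_)
      congr 2
      ext N
      simp only [mem_filter, mem_Ico, mem_range]
      constructor
      · rintro ⟨⟨h1, h2⟩, h3⟩
        exact ⟨⟨by omega, h3⟩, h1, h2⟩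
      · rintro ⟨⟨_, h3⟩, h1, h2⟩
        exact ⟨⟨h1, h2⟩, h3⟩) (by
      refine le_trans (le_of_eq ?_) (h.clo ρ hρ)
      apply Finset.sum_congr
      · ext N
        simp only [mem_filter, mem_range]
        tauto
      · intro N _
        rfl) a b ha hab hb hθab
  have e : c / 4 / 2 = c / 8 := by ring
  rw [e] at h1
  exact h1

/-- (2.3)-(2.6): the local entropies are `ρ` -/
theorem ent_closeW {T M K s R1 R R' ρ : ℕ} {c θ τ e2 e3 r : ℝ} {μ : Ω → ℝ} {z : Ω → ℝ}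
    {X Y : Ω → Fin 2 → ℝ} {ω : Ω} (hμ : ∀ ω, 0 ≤ μ ω) (h : PthW T M s R1 R R' c θ τ e2 e3 r μ z X Y ω)
    (hK : M ≤ K * T) (hc : 0 < c) (hθ : 0 < θ) (hθ2 : θ ≤ 1 / 2) (hT : 1 ≤ T) (h1 : 1 ≤ θ * T) (hτ : 0 < τ)
    (he2 : 2 * e2 ≤ c / 4 * θ ^ 2) (hρ : ρ = R1 ∨ ρ = R) (hbig : 16 + 8 * (τ ^ 2 / 4) * ρ ≤ θ * ρ) :
    ∑ l ∈ range (M + 5 * T), |eL μ X ρ l ω - ρ| ≤ K1W c K * θ * ρ * T ∧
    ∑ l ∈ range (M + 5 * T), |eL μ Y ρ l ω - ρ| ≤ K1W c K * θ * ρ * T := by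
  classical
  have hs := h.sup
  refine num_coreW (c / 8) (by positivity) T M K hK ρ θ (Nat.cast_nonneg _) hθ2 h1 (fun l => eL μ X ρ l ω)
    (fun l => eL μ Y ρ l ω) (BBW T M s ρ R' c θ τ μ z X Y ω) (fun l => eL_nonneg hμ X ρ l ω)
    (fun l => eL_le hμ X ρ l hs) (fun l => eL_nonneg hμ Y ρ l ω) (fun l => eL_le hμ Y ρ l hs)
    (h.slo ρ hρ) (h.preX ρ hρ) (h.preY ρ hρ) ?_ (BBW_dense h hθ hT he2 hρ)
  intro N hN _ _
  unfold BBW at hN
  refine le_trans ?_ (mem_filter.1 hN).2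
  have hsub : (range (N + 1)).filter (fun l => 2 * (ρ : ℝ) + θ * ρ < eL μ X ρ l ω + eL μ Y ρ (N - l) ω) ⊆
      (range (N + 1)).filter (fun l => (τ ^ 2 / 4) ^ 2 < sl μ Y X (N - l) l ρ ω) := by
    intro l hl
    rw [mem_filter] at hl ⊢
    refine ⟨hl.1, ?_⟩
    by_contra hc
    push Not at hc
    have h2 := strip (lw μ Y (N - l) ω) (lw_nonneg hμ Y (N - l) ω) (lw_sum hμ Y (N - l) hs)
      (fun ω' => fr (N - l) (Y ω')) (fun ω' _ => fr_mem _ _) (lw μ X l ω) (lw_nonneg hμ X l ω)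
      (lw_sum hμ X l hs) (fun ω' => fr l (X ω')) (fun ω' _ => fr_mem _ _) ρ (σ := τ ^ 2 / 4)
      (by positivity) hc
    have h3 := hl.2
    unfold eL at h3
    linarith
  exact_mod_cast card_le_card hsub

/-- number of levels with a bad local entropy -/
theorem ent_cardW {T M ρ : ℕ} {K : ℝ} {E : ℕ → ℝ} (hρ : 0 < ρ)
    (h : ∑ l ∈ range (M + 5 * T), |E l - ρ| ≤ K * ρ * T) :
    (((range (M + 5 * T)).filter (fun l => E l < (1 - 1 / 16) * ρ)).card : ℝ) ≤ 16 * K * T := by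
  have hρ' : (0 : ℝ) < ρ := by exact_mod_cast hρ
  have h2 : ((range (M + 5 * T)).filter (fun l => E l < (1 - 1 / 16) * ρ)).card * ((ρ : ℝ) / 16) ≤
      K * ρ * T := by
    refine le_trans ?_ h
    calc (((range (M + 5 * T)).filter (fun l => E l < (1 - 1 / 16) * ρ)).card : ℝ) * ((ρ : ℝ) / 16)
        = ∑ l ∈ (range (M + 5 * T)).filter (fun l => E l < (1 - 1 / 16) * ρ), (ρ : ℝ) / 16 := by
          rw [sum_const, nsmul_eq_mul]
      _ ≤ ∑ l ∈ (range (M + 5 * T)).filter (fun l => E l < (1 - 1 / 16) * ρ), |E l - ρ| := by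
          refine sum_le_sum fun l hl => ?_
          have h3 := (mem_filter.1 hl).2
          rw [abs_of_neg (by linarith)]
          linarith
      _ ≤ _ := sum_le_sum_of_subset_of_nonneg (filter_subset _ _) fun _ _ _ => abs_nonneg _
  have h3 : (((range (M + 5 * T)).filter (fun l => E l < (1 - 1 / 16) * ρ)).card : ℝ) * ((ρ : ℝ) / 16) ≤
      16 * K * T * ((ρ : ℝ) / 16) := by
    refine h2.trans (le_of_eq ?_)
    ring
  exact le_of_mul_le_mul_right h3 (by positivity)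

/-- reflection of a count -/
theorem card_reflectW (T M N : ℕ) (hN : N < M + 5 * T) (P : ℕ → Prop) [DecidablePred P] :
    ((range (N + 1)).filter (fun l => P (N - l))).card ≤ ((range (M + 5 * T)).filter P).card := by
  refine card_le_card_of_injOn (fun l => N - l) ?_ ?_
  · intro l hl
    simp only [coe_filter, mem_range, Set.mem_ofPred_eq] at hl ⊢
    exact ⟨by omega, hl.2⟩
  · intro l hl l' hl' h
    simp only [coe_filter, mem_range, Set.mem_ofPred_eq] at hl hl'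
    simp only at h
    omega

theorem card_restrictW (T M N : ℕ) (hN : N < M + 5 * T) (P : ℕ → Prop) [DecidablePred P] :
    ((range (N + 1)).filter P).card ≤ ((range (M + 5 * T)).filter P).card := by
  refine card_le_card ?_
  intro l hl
  simp only [mem_filter, mem_range] at hl ⊢
  exact ⟨by omega, hl.2⟩

end

end Pool.Agent.Helper92.WA
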