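import Pool.Agent.Helper97.WF.Num

/-! Constancy along antidiagonals in a high window. -/

set_option autoImplicit false

namespace Pool.Agent.Helper92.WA

open Finset Pool.Agent.Helper97.WF

section Gcore

variable {X : Type*} (d : X → X → ℝ) (hd0 : ∀ x y, 0 ≤ d x y) (hdd : ∀ x, d x x = 0)
  (hds : ∀ x y, d x y = d y x) (hdt : ∀ x y z, d x z ≤ d x y + d y z)
  (f f' : ℕ → X) (T M : ℕ) (hT : 1 ≤ T) (c β : ℝ) (hc : 0 < c) (hβ : 0 ≤ β) (B : Finset ℕ)
  (hB : c * T ≤ (B.filter (fun N => M + 4 * T ≤ N ∧ N < M + 5 * T)).card)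
  (h1 : ∀ N ∈ B, M + 2 * T ≤ N → N < M + 5 * T → ∑ l ∈ range (N + 1), d (f l) (f' (N - l)) ≤ β)
  (h2 : ∑ l ∈ range (M + 4 * T), d (f l) (f (l + 1)) ≤ 2 * β)
  (hne : ∃ N ∈ B, M + 2 * T ≤ N ∧ N < M + 3 * T)

include hd0 hdd hds hdt hT hc hβ hB h1 h2 hne

/-- one block -/
theorem glW_block (a : ℕ) (ha : a ≤ M) : ∃ x : X, ∀ N ∈ B, M + 4 * T ≤ N → N < M + 5 * T →
    ∑ l ∈ Ico a (N + 1 - (M - a)), d (f l) x ≤ (264 / c + 3) * β ∧
    ∑ j ∈ Ico (M - a) (N + 1 - a), d (f' j) x ≤ (264 / c + 3) * β := by
  classical
  have key := gl_const d hd0 hdd hds hdt (fun l => f (a + l)) (fun j => f' (M - a + j)) T hT c β hc hβ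
    ((B.filter (fun N => M ≤ N)).image (fun N => N - M))
    (by
      refine hB.trans ?_
      refine Nat.cast_le.2 (card_le_card_of_injOn (fun N => N - M) ?_ ?_)
      · intro N hN
        rw [mem_coe, mem_filter] at hN
        rw [mem_coe, mem_filter, mem_image]
        refine ⟨⟨N, mem_filter.2 ⟨hN.1, by omega⟩, rfl⟩, by simp only; omega, by simp only; omega⟩
      · intro N hN N' hN' h
        rw [mem_coe, mem_filter] at hN hN'
        simp only at h
        omega)
    (by
      intro N1 hN1 h3 h4
      rw [mem_image] at hN1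
      obtain ⟨N, hN, rfl⟩ := hN1
      rw [mem_filter] at hN
      have h5 := h1 N hN.1 (by omega) (by omega)
      refine le_trans ?_ h5
      calc ∑ l ∈ range (N - M + 1), d (f (a + l)) (f' (M - a + (N - M - l)))
          = ∑ l ∈ Ico a (N + 1 - (M - a)), d (f l) (f' (N - l)) := by
            rw [Finset.sum_Ico_eq_sum_range]
            have e : N + 1 - (M - a) - a = N - M + 1 := by omega
            rw [e]
            refine sum_congr rfl fun l hl => ?_
            rw [mem_range] at hl
            have e2 : M - a + (N - M - l) = N - (a + l) := by omega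
            rw [e2]
        _ ≤ _ := by
            refine sum_le_sum_of_subset_of_nonneg ?_ fun _ _ _ => hd0 _ _
            intro l hl
            rw [mem_Ico] at hl
            rw [mem_range]
            omega)
    (by
      refine le_trans ?_ h2
      have := shift_sum (fun l => d (f l) (f (l + 1))) (fun l => hd0 _ _) (4 * T) a (M + 4 * T) (by omega)
      refine le_trans (le_of_eq ?_) this
      refine sum_congr rfl fun l _ => ?_
      have e1 : a + (l + 1) = l + a + 1 := by omega
      have e2 : a + l = l + a := by omega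
      rw [e1, e2])
    (by
      obtain ⟨N, hN, h3, h4⟩ := hne
      exact ⟨N - M, mem_image.2 ⟨N, mem_filter.2 ⟨hN, by omega⟩, rfl⟩, by omega, by omega⟩)
  obtain ⟨x, hx⟩ := key
  refine ⟨x, fun N hN h3 h4 => ?_⟩
  obtain ⟨h5, h6⟩ := hx (N - M) (mem_image.2 ⟨N, mem_filter.2 ⟨hN, by omega⟩, rfl⟩) (by omega) (by omega)
  constructor
  · refine le_trans (le_of_eq ?_) h5
    rw [Finset.sum_Ico_eq_sum_range]
    have e : N + 1 - (M - a) - a = N - M + 1 := by omega
    rw [e]
  · refine le_trans (le_of_eq ?_) h6
    rw [Finset.sum_Ico_eq_sum_range]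
    have e : N + 1 - a - (M - a) = N - M + 1 := by omega
    rw [e]

/-- `f` and `f'` are nearly constant, with the same value -/
theorem gl_constW (K : ℕ) (hK : M ≤ K * T) : ∃ x0 : X, ∀ N ∈ B, M + 4 * T ≤ N → N < M + 5 * T →
    ∑ l ∈ range (N + 1), d (f l) x0 ≤ (K + 1) * (1 + 5 * K) * (264 / c + 3) * β ∧
    ∑ l ∈ range (N + 1), d (f' l) x0 ≤ (K + 1) * (1 + 5 * K) * (264 / c + 3) * β := by
  classical
  have hT' : (1 : ℝ) ≤ T := by exact_mod_cast hT
  set C := (264 / c + 3) * β with hC
  have hC0 : 0 ≤ C := by positivity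
  have hbl := fun a => glW_block d hd0 hdd hds hdt f f' T M hT c β hc hβ B hB h1 h2 hne a
  have hbl' : ∀ a, ∃ x : X, a ≤ M → ∀ N ∈ B, M + 4 * T ≤ N → N < M + 5 * T →
      ∑ l ∈ Ico a (N + 1 - (M - a)), d (f l) x ≤ C ∧
      ∑ j ∈ Ico (M - a) (N + 1 - a), d (f' j) x ≤ C := by
    intro a
    by_cases h : a ≤ M
    · obtain ⟨x, hx⟩ := hbl a h
      exact ⟨x, fun _ => hx⟩
    · exact ⟨f 0, fun h' => absurd h' h⟩
  choose x hx using hbl'
  -- a top element
  obtain ⟨N0, hN0, hN1, hN2⟩ : ∃ N ∈ B, M + 4 * T ≤ N ∧ N < M + 5 * T := by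
    have h3 : (0 : ℝ) < ((B.filter (fun N => M + 4 * T ≤ N ∧ N < M + 5 * T)).card : ℝ) :=
      lt_of_lt_of_le (by positivity) hB
    have h4 : 0 < (B.filter (fun N => M + 4 * T ≤ N ∧ N < M + 5 * T)).card := by exact_mod_cast h3
    obtain ⟨N, hN⟩ := card_pos.mp h4
    rw [mem_filter] at hN
    exact ⟨N, hN.1, hN.2⟩
  -- neighbouring blocks
  have hnb : ∀ a b, a ≤ b → b ≤ a + T → b ≤ M → d (x a) (x b) * T ≤ C := by
    intro a b hab hbT hbM
    obtain ⟨h3, _⟩ := hx a (by omega) N0 hN0 hN1 hN2
    obtain ⟨h4, _⟩ := hx b hbM N0 hN0 hN1 hN2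
    have h5 : ∑ l ∈ Ico b (b + 2 * T), d (x a) (x b) ≤ C + C := by
      calc ∑ l ∈ Ico b (b + 2 * T), d (x a) (x b)
          ≤ ∑ l ∈ Ico b (b + 2 * T), (d (f l) (x a) + d (f l) (x b)) := by
            refine sum_le_sum fun l _ => ?_
            have := hdt (x a) (f l) (x b)
            rw [hds (x a) (f l)] at this
            exact this
        _ = ∑ l ∈ Ico b (b + 2 * T), d (f l) (x a) + ∑ l ∈ Ico b (b + 2 * T), d (f l) (x b) := sum_add_distrib
        _ ≤ C + C := by
            refine add_le_add (le_trans ?_ h3) (le_trans ?_ h4)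
            · refine sum_le_sum_of_subset_of_nonneg ?_ fun _ _ _ => hd0 _ _
              intro l hl
              rw [mem_Ico] at hl ⊢
              omega
            · refine sum_le_sum_of_subset_of_nonneg ?_ fun _ _ _ => hd0 _ _
              intro l hl
              rw [mem_Ico] at hl ⊢
              omega
    rw [sum_const, Nat.card_Ico, nsmul_eq_mul] at h5
    have e : b + 2 * T - b = 2 * T := by omega
    rw [e] at h5
    push_cast at h5
    have := hd0 (x a) (x b)
    nlinarith
  set m : ℕ → ℕ := fun k => min (k * T) M with hm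
  have hmM : ∀ k, m k ≤ M := fun k => min_le_right _ _
  have hch : ∀ k : ℕ, d (x (m k)) (x 0) * T ≤ k * C := by
    intro k
    induction k with
    | zero =>
      have : m 0 = 0 := by rw [hm]; simp
      rw [this, hdd]
      simp
    | succ k ih =>
      have h3 : m k ≤ m (k + 1) := by
        rw [hm]
        exact min_le_min_right M (Nat.mul_le_mul_right T (Nat.le_succ k))
      have h4 : m (k + 1) ≤ m k + T := by
        rw [hm]
        simp only
        rw [Nat.add_mul, one_mul]
        omega
      have h5 := hnb (m k) (m (k + 1)) h3 h4 (hmM _)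
      have h6 := hdt (x (m (k + 1))) (x (m k)) (x 0)
      rw [hds (x (m (k + 1))) (x (m k))] at h6
      push_cast
      nlinarith
  have hkK : ∀ k ∈ range (K + 1), d (x (m k)) (x 0) * T ≤ K * C := by
    intro k hk
    rw [mem_range] at hk
    refine (hch k).trans (mul_le_mul_of_nonneg_right ?_ hC0)
    exact_mod_cast (by omega : k ≤ K)
  refine ⟨x 0, fun N hN h3 h4 => ?_⟩
  have hlen : (((N + 1 - M : ℕ) : ℝ)) ≤ 5 * T := by
    have : N + 1 - M ≤ 5 * T := by omega
    exact_mod_cast this
  -- a block, compared with `x 0`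
  have hone : ∀ (g : ℕ → X) (k a b : ℕ), k ∈ range (K + 1) → b - a ≤ N + 1 - M →
      ∑ l ∈ Ico a b, d (g l) (x (m k)) ≤ C → ∑ l ∈ Ico a b, d (g l) (x 0) ≤ (1 + 5 * K) * C := by
    intro g k a b hk hab h5
    have h6 : ∑ l ∈ Ico a b, d (g l) (x 0) ≤ ∑ l ∈ Ico a b, d (g l) (x (m k)) +
        ∑ l ∈ Ico a b, d (x (m k)) (x 0) := by
      rw [← sum_add_distrib]
      exact sum_le_sum fun l _ => hdt _ _ _
    rw [sum_const, Nat.card_Ico, nsmul_eq_mul] at h6
    have h7 := hkK k hk
    have h8 : ((b - a : ℕ) : ℝ) * d (x (m k)) (x 0) ≤ 5 * T * d (x (m k)) (x 0) := by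
      refine mul_le_mul_of_nonneg_right (le_trans ?_ hlen) (hd0 _ _)
      exact_mod_cast hab
    linarith
  have hsum : ∀ (g : ℕ → X) (A : ℕ → ℕ × ℕ), (∀ l, l < N + 1 → ∃ k ∈ range (K + 1), (A k).1 ≤ l ∧ l < (A k).2) →
      (∀ k ∈ range (K + 1), ∑ l ∈ Ico (A k).1 (A k).2, d (g l) (x 0) ≤ (1 + 5 * K) * C) →
      ∑ l ∈ range (N + 1), d (g l) (x 0) ≤ (K + 1) * ((1 + 5 * K) * C) := by
    intro g A hA h5
    calc ∑ l ∈ range (N + 1), d (g l) (x 0)
        ≤ ∑ l ∈ range (N + 1), ∑ k ∈ range (K + 1),
            (if (A k).1 ≤ l ∧ l < (A k).2 then d (g l) (x 0) else 0) := by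
          refine sum_le_sum fun l hl => ?_
          rw [mem_range] at hl
          obtain ⟨k, hk, h6⟩ := hA l hl
          refine le_trans (le_of_eq ?_) (single_le_sum (f := fun k =>
            (if (A k).1 ≤ l ∧ l < (A k).2 then d (g l) (x 0) else 0)) ?_ hk)
          · rw [if_pos h6]
          · intro k _
            split_ifs
            · exact hd0 _ _
            · exact le_rfl
      _ = ∑ k ∈ range (K + 1), ∑ l ∈ range (N + 1),
            (if (A k).1 ≤ l ∧ l < (A k).2 then d (g l) (x 0) else 0) := sum_comm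
      _ ≤ ∑ k ∈ range (K + 1), ((1 + 5 * K) * C) := by
          refine sum_le_sum fun k hk => le_trans ?_ (h5 k hk)
          rw [← sum_filter]
          refine sum_le_sum_of_subset_of_nonneg ?_ fun _ _ _ => hd0 _ _
          intro l hl
          rw [mem_filter] at hl
          rw [mem_Ico]
          exact hl.2
      _ = _ := by
          rw [sum_const, card_range, nsmul_eq_mul]
          push_cast
          ring
  have hfin : ((K : ℝ) + 1) * ((1 + 5 * K) * C) = (K + 1) * (1 + 5 * K) * (264 / c + 3) * β := by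
    rw [hC]
    ring
  rw [← hfin]
  constructor
  · refine hsum f (fun k => (m k, N + 1 - (M - m k))) ?_ ?_
    · intro l hl
      rcases le_or_gt l M with h5 | h5
      · have h6 := Nat.div_add_mod l T
        have h7 := Nat.mod_lt l (show T > 0 by omega)
        have h8 : T * (l / T) = (l / T) * T := Nat.mul_comm _ _
        have h9 : l / T ≤ K := by
          by_contra hc
          push Not at hc
          have : (K + 1) * T ≤ (l / T) * T := Nat.mul_le_mul_right T hc
          rw [Nat.add_mul, one_mul] at this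
          omega
        refine ⟨l / T, mem_range.2 (by omega), ?_, ?_⟩
        · simp only [hm]
          exact (min_le_left _ _).trans (by omega)
        · have h10 : m (l / T) = (l / T) * T := by
            rw [hm]
            exact min_eq_left (by omega)
          simp only [h10]
          omega
      · refine ⟨K, mem_range.2 (by omega), ?_, ?_⟩
        · exact (hmM K).trans h5.le
        · have h10 : m K = M := by
            rw [hm]
            exact min_eq_right hK
          simp only [h10]
          omega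
    · intro k hk
      exact hone f k _ _ hk (by have := hmM k; simp only; omega) (hx (m k) (hmM k) N hN h3 h4).1
  · refine hsum f' (fun k => (M - m k, N + 1 - m k)) ?_ ?_
    · intro l hl
      -- the index `k` with `M - m k ≤ l < N + 1 - m k`
      rcases le_or_gt M l with h5 | h5
      · refine ⟨0, mem_range.2 (by omega), ?_, ?_⟩
        · simp only
          omega
        · have h10 : m 0 = 0 := by
            rw [hm]
            simp
          simp only [h10]
          omega
      · -- `M - l > 0`
        have h6 := Nat.div_add_mod (M - l + T - 1) T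
        have h7 := Nat.mod_lt (M - l + T - 1) (show T > 0 by omega)
        have h8 : T * ((M - l + T - 1) / T) = ((M - l + T - 1) / T) * T := Nat.mul_comm _ _
        have h9 : (M - l + T - 1) / T ≤ K := by
          by_contra hc
          push Not at hc
          have : (K + 1) * T ≤ ((M - l + T - 1) / T) * T := Nat.mul_le_mul_right T hc
          rw [Nat.add_mul, one_mul] at this
          omega
        refine ⟨(M - l + T - 1) / T, mem_range.2 (by omega), ?_, ?_⟩
        · have h10 : M - l ≤ m ((M - l + T - 1) / T) := by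
            rw [hm]
            exact le_min (by omega) (by omega)
          simp only
          omega
        · have h10 : m ((M - l + T - 1) / T) ≤ ((M - l + T - 1) / T) * T := by
            rw [hm]
            exact min_le_left _ _
          have h11 := hmM ((M - l + T - 1) / T)
          simp only
          omega
    · intro k hk
      exact hone f' k _ _ hk (by have := hmM k; simp only; omega) (hx (m k) (hmM k) N hN h3 h4).2

end Gcore

end Pool.Agent.Helper92.WA
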